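import Pool.Agent.H25G.Final

/-!
# Cubic bipartite graphs of large girth on every even number of vertices

For every `m ≥ 8` there is a connected cubic bipartite graph on `2m` vertices of girth at least
`(4/3) log₂ (2m) - 34 log₂ log₂ (2m) - 160`.
-/

namespace H25G.AllOrdersOld

/-- The maximum of the girths of the cubic bipartite graphs on `n` vertices. -/
noncomputable def b (n : ℕ) : ℕ :=
  sSup {g | ∃ G : SimpleGraph (Fin n),
    (∀ v, (G.neighborSet v).ncard = 3) ∧ G.IsBipartite ∧ G.girth = g}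

/-- The set of girths in the definition of `b` is bounded, so that the supremum is a maximum. -/
theorem bddAbove (n : ℕ) : BddAbove {g | ∃ G : SimpleGraph (Fin n),
    (∀ v, (G.neighborSet v).ncard = 3) ∧ G.IsBipartite ∧ G.girth = g} := by
  apply Set.Finite.bddAbove
  apply (Set.finite_range (fun G : SimpleGraph (Fin n) => G.girth)).subset
  rintro g ⟨G, _, _, rfl⟩
  exact ⟨G, rfl⟩

/-- For every `m ≥ 8` there is a connected cubic bipartite graph on `2m` vertices whose girth is at
least `(4/3) log₂ (2m) - 34 log₂ log₂ (2m) - 160`; in particular this is a lower bound for `b (2m)`. -/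
theorem allOrders (m : ℕ) (hm : 8 ≤ m) :
    (∃ G : SimpleGraph (Fin (2 * m)), G.Connected ∧ (∀ v, (G.neighborSet v).ncard = 3) ∧
      G.IsBipartite ∧
      4 / 3 * Real.logb 2 (2 * m) - 34 * Real.logb 2 (Real.logb 2 (2 * m)) - 160 ≤ (G.girth : ℝ)) ∧
    4 / 3 * Real.logb 2 (2 * m) - 34 * Real.logb 2 (Real.logb 2 (2 * m)) - 160 ≤ (b (2 * m) : ℝ) := by
  obtain ⟨G, hc, hn, hb, hg⟩ := H25G.exists_graph hm
  unfold H25G.bd at hg
  refine ⟨⟨G, hc, hn, hb, hg⟩, hg.trans ?_⟩
  have h : G.girth ≤ b (2 * m) := le_csSup (bddAbove _) ⟨G, hn, hb, rfl⟩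
  exact_mod_cast h

end H25G.AllOrdersOld
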