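import Pool.Agent.H25G.Col

/-! operations on three-edge-coloured cubic bipartite graphs: disjoint union, and joining three
graphs with the help of two new vertices -/

namespace H25G

namespace Col

/-- disjoint union -/
def sum {X Y : Type*} (C : Col X) (D : Col Y) : Col (X ⊕ Y) where
  ι i z := Sum.map (C.ι i) (D.ι i) z
  side := Sum.elim C.side D.side
  invol i z := by
    rcases z with x | y
    · simp [C.invol]
    · simp [D.invol]
  side_ι i z := by
    rcases z with x | y
    · simp [C.side_ι]
    · simp [D.side_ι]

theorem sum_act_inl {X Y : Type*} (C : Col X) (D : Col Y) (w : List (Fin 3)) (x : X) :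
    (C.sum D).act w (Sum.inl x) = Sum.inl (C.act w x) := by
  induction w generalizing x with
  | nil => rfl
  | cons i w ih => exact ih _

theorem sum_act_inr {X Y : Type*} (C : Col X) (D : Col Y) (w : List (Fin 3)) (y : Y) :
    (C.sum D).act w (Sum.inr y) = Sum.inr (D.act w y) := by
  induction w generalizing y with
  | nil => rfl
  | cons i w ih => exact ih _

theorem Girth.sum {X Y : Type*} {C : Col X} {D : Col Y} {g : ℕ} (hC : C.Girth g) (hD : D.Girth g) :
    (C.sum D).Girth g := by
  intro w hw hr hl z
  rcases z with x | y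
  · rw [sum_act_inl]
    intro h
    exact hC w hw hr hl x (Sum.inl_injective h)
  · rw [sum_act_inr]
    intro h
    exact hD w hw hr hl y (Sum.inr_injective h)

section Surg

variable {X : Fin 3 → Type*} (C : ∀ j, Col (X j)) (x : ∀ j, X j) (hx : ∀ j, (C j).side (x j) = false)

/-- disjoint union of three graphs and of a theta graph -/
def disj : Col ((Σ j, X j) ⊕ Bool) where
  ι i z := match z with
    | Sum.inl ⟨j, y⟩ => Sum.inl ⟨j, (C j).ι i y⟩
    | Sum.inr b => Sum.inr (!b)
  side z := match z with
    | Sum.inl ⟨j, y⟩ => (C j).side y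
    | Sum.inr b => b
  invol i z := by
    rcases z with ⟨j, y⟩ | b
    · simp [(C j).invol]
    · simp
  side_ι i z := by
    rcases z with ⟨j, y⟩ | b
    · simp [(C j).side_ι]
    · simp

theorem disj_act_inl (w : List (Fin 3)) (j : Fin 3) (y : X j) :
    (disj C).act w (Sum.inl ⟨j, y⟩) = Sum.inl ⟨j, (C j).act w y⟩ := by
  induction w generalizing y with
  | nil => rfl
  | cons i w ih => exact ih _

open Classical in
/-- the edge `x j -- ι j (x j)` of colour `j` of the `j`-th graph is removed and its endpoints are joined
to the two new vertices -/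
noncomputable def surg : Col ((Σ j, X j) ⊕ Bool) where
  ι i z := match z with
    | Sum.inl ⟨j, y⟩ => if i = j then
        (if y = x j then Sum.inr true else if y = (C j).ι j (x j) then Sum.inr false
          else Sum.inl ⟨j, (C j).ι j y⟩)
        else Sum.inl ⟨j, (C j).ι i y⟩
    | Sum.inr true => Sum.inl ⟨i, x i⟩
    | Sum.inr false => Sum.inl ⟨i, (C i).ι i (x i)⟩
  side z := match z with
    | Sum.inl ⟨j, y⟩ => (C j).side y
    | Sum.inr b => b
  invol i z := by
    rcases z with ⟨j, y⟩ | b
    · by_cases hij : i = j
      · subst hij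
        by_cases h1 : y = x i
        · subst h1
          simp
        · by_cases h2 : y = (C i).ι i (x i)
          · subst h2
            simp [(C i).ι_ne]
          · have h3 : (C i).ι i y ≠ x i := by
              intro h
              apply h2
              rw [← h, (C i).invol]
            have h4 : (C i).ι i y ≠ (C i).ι i (x i) := by
              intro h
              apply h1
              rw [← (C i).invol i y, h, (C i).invol]
            simp [h1, h2, h3, h4, (C i).invol]
      · simp [hij, (C j).invol]
    · cases b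
      · simp [(C i).ι_ne]
      · simp
  side_ι i z := by
    rcases z with ⟨j, y⟩ | b
    · by_cases hij : i = j
      · subst hij
        by_cases h1 : y = x i
        · subst h1
          simp [hx]
        · by_cases h2 : y = (C i).ι i (x i)
          · subst h2
            simp [(C i).ι_ne, (C i).side_ι, hx]
          · simp [h1, h2, (C i).side_ι]
      · simp [hij, (C j).side_ι]
    · cases b
      · simp [(C i).side_ι, hx]
      · simp [hx]

theorem surg_girth {g : ℕ} (hg : ∀ j, (C j).Girth g) : (surg C x hx).Girth g := by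
  classical
  set S : Fin 3 → Set ((Σ j, X j) ⊕ Bool) := fun j => {z | ∃ y : X j, z = Sum.inl ⟨j, y⟩} with hSdef
  have hS : ∀ j i z, z ∈ S j → (disj C).ι i z ∈ S j := by
    rintro j i z ⟨y, rfl⟩
    exact ⟨(C j).ι i y, rfl⟩
  have hgS : ∀ j w, w ≠ [] → Red w → w.length < g → ∀ z ∈ S j, (disj C).act w z ≠ z := by
    rintro j w h1 h2 h3 z ⟨y, rfl⟩ h
    rw [disj_act_inl] at h
    have h4 := Sum.inl_injective h
    exact hg j w h1 h2 h3 y (eq_of_heq (Sigma.mk.inj h4).2)
  have hmod : ∀ j, ∀ z ∈ S j, ∀ i, (surg C x hx).ι i z ≠ (disj C).ι i z →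
      i = j ∧ (z = Sum.inl ⟨j, x j⟩ ∨ z = (disj C).ι j (Sum.inl ⟨j, x j⟩)) := by
    rintro j z ⟨y, rfl⟩ i h
    by_cases hij : i = j
    · refine ⟨hij, ?_⟩
      subst hij
      by_cases h1 : y = x i
      · left; rw [h1]
      by_cases h2 : y = (C i).ι i (x i)
      · right; rw [h2]; rfl
      exfalso
      apply h
      simp [surg, disj, h1, h2]
    · exfalso
      apply h
      simp [surg, disj, hij]
  -- entering a component from a new vertex
  have hent : ∀ (i : Fin 3) (b : Bool), (surg C x hx).ι i (Sum.inr b) = Sum.inl ⟨i, x i⟩ ∨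
      (surg C x hx).ι i (Sum.inr b) = (disj C).ι i (Sum.inl ⟨i, x i⟩) := by
    intro i b
    cases b
    · right; rfl
    · left; rfl
  apply girth_mod (disj C)
  · intro w z hw hr hl hu
    rcases z with ⟨j, y⟩ | b
    · exact hgS j w hw hr hl _ ⟨y, rfl⟩
    · exfalso
      cases w with
      | nil => exact hw rfl
      | cons i w =>
        have h1 := hu.1
        rcases hent i b with h2 | h2
        · rw [h2] at h1
          exact absurd h1 (by simp [disj])
        · rw [h2] at h1
          exact absurd h1 (by simp [disj])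
  · intro i w z hr hf hm
    have hrw : Red (i :: w) := hr.of_eq [] _ [i] (by simp)
    rcases z with ⟨j, y⟩ | b
    · obtain ⟨hij, _⟩ := hmod j _ ⟨y, rfl⟩ i hm
      subst hij
      -- the first step leads to a new vertex
      obtain ⟨b, hb⟩ : ∃ b, (surg C x hx).ι i (Sum.inl ⟨i, y⟩) = Sum.inr b := by
        by_cases h1 : y = x i
        · exact ⟨true, by simp [surg, h1]⟩
        by_cases h2 : y = (C i).ι i (x i)
        · exact ⟨false, by simp [surg, h2, (C i).ι_ne]⟩
        exfalso
        apply hm
        simp [surg, disj, h1, h2]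
      rw [act_cons, hb] at hf
      cases w with
      | nil => exact absurd hf (by simp)
      | cons i2 w2 =>
        have hne : i ≠ i2 := by
          intro h
          subst h
          exact not_red_cons_cons hrw
        rw [act_cons] at hf
        have h3 := exc (disj C) (surg C x hx) (hS i2) (hgS i2) (j := i2)
          (e := Sum.inl ⟨i2, x i2⟩) ⟨_, rfl⟩ (hmod i2) (w := w2)
          (hrw.of_eq [i] _ [] (by simp)) (hent i2 b) (by
            rw [hf]
            rintro ⟨y', h⟩
            exact hne (Sigma.mk.inj (Sum.inl_injective h)).1)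
        simp only [List.length_cons]
        omega
    · rw [act_cons] at hf
      have h3 := exc (disj C) (surg C x hx) (hS i) (hgS i) (j := i)
          (e := Sum.inl ⟨i, x i⟩) ⟨_, rfl⟩ (hmod i) (w := w) hrw (hent i b) (by
            rw [hf]
            rintro ⟨y', h⟩
            exact absurd h (by simp))
      omega

end Surg

end Col

/-- there is a three-edge-coloured cubic bipartite graph of girth at least `g` on `n` vertices -/
def Good (g n : ℕ) : Prop := ∃ (X : Type) (_ : Finite X) (C : Col X), Nat.card X = n ∧ C.Girth g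

theorem Good.add {g a b : ℕ} (ha : Good g a) (hb : Good g b) : Good g (a + b) := by
  obtain ⟨X, _, C, rfl, hC⟩ := ha
  obtain ⟨Y, _, D, rfl, hD⟩ := hb
  exact ⟨X ⊕ Y, inferInstance, C.sum D, Nat.card_sum, hC.sum hD⟩

theorem Good.zero (g : ℕ) : Good g 0 :=
  ⟨Empty, inferInstance, ⟨fun _ x => x, fun _ => false, fun _ x => x.elim, fun _ x => x.elim⟩,
    by simp, fun _ _ _ _ x => x.elim⟩

theorem Good.mul {g a : ℕ} (ha : Good g a) (k : ℕ) : Good g (k * a) := by
  induction k with
  | zero => rw [zero_mul]; exact Good.zero g
  | succ k ih => rw [Nat.succ_mul]; exact ih.add ha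

theorem Good.sum {g : ℕ} {ι : Type} (s : Finset ι) (f : ι → ℕ) (h : ∀ i ∈ s, Good g (f i)) :
    Good g (∑ i ∈ s, f i) := by
  classical
  induction s using Finset.induction_on with
  | empty => rw [Finset.sum_empty]; exact Good.zero g
  | insert a s ha ih =>
    rw [Finset.sum_insert ha]
    exact (h a (Finset.mem_insert_self _ _)).add (ih fun i hi => h i (Finset.mem_insert_of_mem hi))

theorem Good.surg {g : ℕ} {n : Fin 3 → ℕ} (h : ∀ j, Good g (n j)) (hn : ∀ j, 0 < n j) :
    Good g (∑ j, n j + 2) := by
  choose X hX C hc hg using h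
  have hne : ∀ j, Nonempty (X j) := by
    intro j
    by_contra hcon
    rw [not_nonempty_iff] at hcon
    have := hc j
    rw [Nat.card_of_isEmpty] at this
    have := hn j
    omega
  have hx : ∀ j, ∃ x, (C j).side x = false := by
    intro j
    obtain ⟨x⟩ := hne j
    cases hs : (C j).side x
    · exact ⟨x, hs⟩
    · exact ⟨(C j).ι 0 x, by rw [(C j).side_ι, hs]; rfl⟩
  choose x hx using hx
  refine ⟨(Σ j, X j) ⊕ Bool, inferInstance, Col.surg C x hx, ?_, Col.surg_girth C x hx hg⟩
  rw [Nat.card_sum, Nat.card_sigma]
  simp [hc]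

theorem Good.add_two {g a : ℕ} (h : Good g a) (ha : 0 < a) : Good g (3 * a + 2) := by
  have := Good.surg (n := fun _ => a) (fun _ => h) (fun _ => ha)
  simpa using this

end H25G
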