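import Pool.Agent.H25G.Quat
import Pool.Agent.H25G.Ops

/-! for every prime `q ≥ 5` a cubic bipartite graph on `2 q (q² - 1)` vertices of girth at least
`4 log₂ q - 4` -/

namespace H25G

open Matrix

section

variable {q : ℕ} [hq : Fact q.Prime]

/-- number of `2×2` matrices of given nonzero determinant -/
theorem card_det (d : ZMod q) (hd : d ≠ 0) :
    Nat.card {M : Matrix (Fin 2) (Fin 2) (ZMod q) // M.det = d} = q * (q ^ 2 - 1) := by
  classical
  have hq1 := hq.out.one_lt
  have hne : ∀ g : GL (Fin 2) (ZMod q), g.val.det ≠ 0 := fun g =>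
    ((Matrix.isUnit_iff_isUnit_det _).mp g.isUnit).ne_zero
  have hdg : ∀ u v : ZMod q, u * v = 1 → (diagonal ![u, 1] * diagonal ![v, 1] :
      Matrix (Fin 2) (Fin 2) (ZMod q)) = 1 := by
    intro u v huv
    rw [diagonal_mul_diagonal, ← diagonal_one]
    congr 1
    funext i
    fin_cases i
    · exact huv
    · exact mul_one 1
  have hdet : ∀ (u : ZMod q) (M : Matrix (Fin 2) (Fin 2) (ZMod q)),
      (diagonal ![u, 1] * M).det = u * M.det := by
    intro u M
    rw [det_mul, det_diagonal, Fin.prod_univ_two]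
    show u * 1 * M.det = u * M.det
    rw [mul_one]
  let eqv : GL (Fin 2) (ZMod q) ≃
      (ZMod q)ˣ × {M : Matrix (Fin 2) (Fin 2) (ZMod q) // M.det = d} :=
    { toFun := fun g => (Units.mk0 g.val.det (hne g),
        ⟨diagonal ![d * (g.val.det)⁻¹, 1] * g.val, by
          rw [hdet, mul_assoc, inv_mul_cancel₀ (hne g), mul_one]⟩)
      invFun := fun p => GeneralLinearGroup.mkOfDetNeZero
        (diagonal ![(p.1 : ZMod q) * d⁻¹, 1] * p.2.val) (by
          rw [hdet, p.2.2, mul_assoc, inv_mul_cancel₀ hd, mul_one]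
          exact p.1.ne_zero)
      left_inv := by
        intro g
        apply Units.ext
        show diagonal ![g.val.det * d⁻¹, 1] *
          (diagonal ![d * (g.val.det)⁻¹, 1] * g.val) = g.val
        rw [← Matrix.mul_assoc, hdg, Matrix.one_mul]
        have := hne g
        field_simp
      right_inv := by
        rintro ⟨u, M, hM⟩
        have hu : (u : ZMod q) ≠ 0 := u.ne_zero
        have hdt : (diagonal ![(u : ZMod q) * d⁻¹, 1] * M).det = u := by
          rw [hdet, hM, mul_assoc, inv_mul_cancel₀ hd, mul_one]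
        refine Prod.ext ?_ ?_
        · apply Units.ext
          exact hdt
        · apply Subtype.ext
          show diagonal ![d * ((diagonal ![(u : ZMod q) * d⁻¹, 1] * M).det)⁻¹, 1] *
            (diagonal ![(u : ZMod q) * d⁻¹, 1] * M) = M
          rw [hdt, ← Matrix.mul_assoc, hdg, Matrix.one_mul]
          field_simp }
  have h1 := Nat.card_congr eqv
  rw [Nat.card_prod, Matrix.card_GL_field] at h1
  rw [Fin.prod_univ_two, Nat.card_eq_fintype_card, ZMod.card_units_eq_totient,
    Nat.totient_prime hq.out, ZMod.card] at h1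
  simp only [Fin.val_zero, pow_zero, Fin.val_one, pow_one] at h1
  have h2 : q ^ 2 - q = (q - 1) * q := by rw [Nat.sub_mul, one_mul, sq]
  rw [h2] at h1
  have h3 : (q - 1) * (Nat.card {M : Matrix (Fin 2) (Fin 2) (ZMod q) // M.det = d}) =
      (q - 1) * (q * (q ^ 2 - 1)) := by
    rw [← h1]; ring
  exact Nat.eq_of_mul_eq_mul_left (by omega) h3

/-- a solution of `a² - a c + c² = -1` -/
theorem exists_ac (h2 : q ≠ 2) (h3 : q ≠ 3) : ∃ a c : ZMod q, a ^ 2 - a * c + c ^ 2 + 1 = 0 := by
  have hodd : q % 2 = 1 := hq.out.eq_two_or_odd.resolve_left h2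
  have h2' : (2 : ZMod q) ≠ 0 := by
    intro h
    have : ((2 : ℕ) : ZMod q) = 0 := by exact_mod_cast h
    rw [ZMod.natCast_eq_zero_iff] at this
    exact h2 ((Nat.prime_dvd_prime_iff_eq hq.out Nat.prime_two).mp this)
  have h3' : (3 : ZMod q) ≠ 0 := by
    intro h
    have : ((3 : ℕ) : ZMod q) = 0 := by exact_mod_cast h
    rw [ZMod.natCast_eq_zero_iff] at this
    exact h3 ((Nat.prime_dvd_prime_iff_eq hq.out Nat.prime_three).mp this)
  obtain ⟨u, v, huv⟩ := FiniteField.exists_root_sum_quadratic (R := ZMod q)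
    (f := Polynomial.X ^ 2 + Polynomial.C 4) (g := Polynomial.C 3 * Polynomial.X ^ 2)
    (Polynomial.degree_X_pow_add_C (by norm_num) _)
    (Polynomial.degree_C_mul_X_pow 2 h3') (by rw [ZMod.card]; exact hodd)
  simp at huv
  refine ⟨(u + v) / 2, v, ?_⟩
  field_simp
  linear_combination huv


theorem two_ne (h2 : q ≠ 2) : (2 : ZMod q) ≠ 0 := by
  intro h
  have : ((2 : ℕ) : ZMod q) = 0 := by exact_mod_cast h
  rw [ZMod.natCast_eq_zero_iff] at this
  exact h2 ((Nat.prime_dvd_prime_iff_eq hq.out Nat.prime_two).mp this)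

theorem three_ne (h3 : q ≠ 3) : (3 : ZMod q) ≠ 0 := by
  intro h
  have : ((3 : ℕ) : ZMod q) = 0 := by exact_mod_cast h
  rw [ZMod.natCast_eq_zero_iff] at this
  exact h3 ((Nat.prime_dvd_prime_iff_eq hq.out Nat.prime_three).mp this)

/-- the vertices: matrices of determinant `1` (side `false`) and `2` (side `true`) -/
def Vert (q : ℕ) : Type :=
  {p : Matrix (Fin 2) (Fin 2) (ZMod q) × Bool // p.1.det = if p.2 then 2 else 1}

instance : Finite (Vert q) := by unfold Vert; infer_instance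

theorem card_vert (h2 : q ≠ 2) : Nat.card (Vert q) = 2 * (q * (q ^ 2 - 1)) := by
  let eqv : Vert q ≃ {M : Matrix (Fin 2) (Fin 2) (ZMod q) // M.det = 1} ⊕
      {M : Matrix (Fin 2) (Fin 2) (ZMod q) // M.det = 2} :=
    { toFun := fun p => match p with
        | ⟨(M, false), h⟩ => Sum.inl ⟨M, by simpa using h⟩
        | ⟨(M, true), h⟩ => Sum.inr ⟨M, by simpa using h⟩
      invFun := fun s => match s with
        | Sum.inl M => ⟨(M.1, false), by simpa using M.2⟩
        | Sum.inr M => ⟨(M.1, true), by simpa using M.2⟩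
      left_inv := by
        rintro ⟨⟨M, b⟩, h⟩
        cases b <;> rfl
      right_inv := by
        rintro (M | M) <;> rfl }
  rw [Nat.card_congr eqv, Nat.card_sum, card_det 1 one_ne_zero, card_det 2 (two_ne h2)]
  ring

/-- scalar factors -/
def scal (q : ℕ) (b : Bool) : ZMod q := if b then 2⁻¹ else 1

theorem scal_mul (h2 : q ≠ 2) (b : Bool) : scal q (!b) * scal q b * 2 = 1 := by
  have := two_ne h2
  cases b <;> simp [scal, this]

/-- the three-edge-coloured graph -/
def cay (h2 : q ≠ 2) (a c : ZMod q) (h : a ^ 2 - a * c + c ^ 2 + 1 = 0) : Col (Vert q) where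
  ι i p := ⟨(scal q p.1.2 • (O.rho a c (O.fac p.1.2 i) * p.1.1), !p.1.2), by
    have hp := p.2
    rw [det_smul, det_mul, O.det_rho h, O.N_fac, hp]
    have := two_ne h2
    cases hb : p.1.2
    · simp [scal]
    · simp [scal]
      field_simp⟩
  side p := p.1.2
  invol i p := by
    apply Subtype.ext
    refine Prod.ext ?_ ?_
    · show scal q (!p.1.2) • (O.rho a c (O.fac (!p.1.2) i) *
        (scal q p.1.2 • (O.rho a c (O.fac p.1.2 i) * p.1.1))) = p.1.1
      rw [Matrix.mul_smul, smul_smul, ← Matrix.mul_assoc, ← O.rho_mul h, O.fac_mul_fac]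
      have h2' : O.rho a c 2 = (2 : ZMod q) • (1 : Matrix (Fin 2) (Fin 2) (ZMod q)) := by
        ext i j
        fin_cases i <;> fin_cases j <;> simp [O.rho, QuaternionAlgebra.re_ofNat,
          QuaternionAlgebra.imI_ofNat, QuaternionAlgebra.imJ_ofNat, QuaternionAlgebra.imK_ofNat]
      rw [h2', Matrix.smul_mul, Matrix.one_mul, smul_smul, scal_mul h2, one_smul]
    · exact Bool.not_not _
  side_ι i p := rfl

/-- accumulated scalar factor -/
def sc (q : ℕ) : Bool → ℕ → ZMod q
  | _, 0 => 1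
  | b, n + 1 => scal q b * sc q (!b) n

theorem sc_even (h2 : q ≠ 2) (b : Bool) (k : ℕ) : sc q b (2 * k) * 2 ^ k = 1 := by
  induction k with
  | zero => simp [sc]
  | succ k ih =>
    have e : 2 * (k + 1) = 2 * k + 1 + 1 := by ring
    rw [e, sc, sc, Bool.not_not, pow_succ]
    calc scal q b * (scal q (!b) * sc q b (2 * k)) * (2 ^ k * 2) =
        (scal q (!b) * scal q b * 2) * (sc q b (2 * k) * 2 ^ k) := by ring
      _ = 1 := by rw [scal_mul h2, ih, one_mul]

theorem cay_act (h2 : q ≠ 2) (a c : ZMod q) (h : a ^ 2 - a * c + c ^ 2 + 1 = 0)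
    (w : List (Fin 3)) (p : Vert q) :
    ((cay h2 a c h).act w p).1.1 = sc q p.1.2 w.length • (O.rho a c (O.W p.1.2 w) * p.1.1) := by
  induction w generalizing p with
  | nil => simp [O.W, sc, O.rho_one]
  | cons i w ih =>
    rw [Col.act_cons, ih]
    show sc q (!p.1.2) w.length • (O.rho a c (O.W (!p.1.2) w) *
      (scal q p.1.2 • (O.rho a c (O.fac p.1.2 i) * p.1.1))) = _
    rw [Matrix.mul_smul, smul_smul, ← Matrix.mul_assoc, ← O.rho_mul h, O.W, List.length_cons, sc,
      mul_comm (sc q (!p.1.2) w.length)]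

theorem Col.side_act {X : Type*} (C : Col X) (w : List (Fin 3)) (x : X) :
    C.side (C.act w x) = if w.length % 2 = 1 then !C.side x else C.side x := by
  induction w generalizing x with
  | nil => simp
  | cons i w ih =>
    rw [Col.act_cons, ih, C.side_ι, List.length_cons]
    rcases Nat.mod_two_eq_zero_or_one w.length with h | h
    · have : (w.length + 1) % 2 = 1 := by omega
      simp [h, this]
    · have : ¬ (w.length + 1) % 2 = 1 := by omega
      simp [h, this]

/-- a quaternion that acts as `2^k` is congruent to `2^k` modulo `q` -/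
theorem rho_eq (h2 : q ≠ 2) (h3 : q ≠ 3) {a c : ZMod q} (h : a ^ 2 - a * c + c ^ 2 + 1 = 0)
    {x : O} {k : ℕ} (hx : O.rho a c x = (2 : ZMod q) ^ k • (1 : Matrix (Fin 2) (Fin 2) (ZMod q))) :
    (x.re : ZMod q) = 2 ^ k ∧ (x.imI : ZMod q) = 0 ∧ (x.imJ : ZMod q) = 0 ∧
      (x.imK : ZMod q) = 0 := by
  have e00 := congrFun (congrFun hx 0) 0
  have e01 := congrFun (congrFun hx 0) 1
  have e10 := congrFun (congrFun hx 1) 0
  have e11 := congrFun (congrFun hx 1) 1
  simp [O.rho] at e00 e01 e10 e11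
  have t2 := two_ne h2
  have t3 := three_ne h3
  have y0 : a * x.imJ - c * x.imK = (0 : ZMod q) := by
    apply mul_left_cancel₀ t3
    linear_combination 2 * e00 - 2 * e11 - e10 + e01
  have i0 : (x.imI : ZMod q) = 0 := by
    linear_combination e00 - e11 - 2 * y0
  have r0 : (x.re : ZMod q) = 2 ^ k := by
    linear_combination e00 - y0
  have z0 : (2 * c - a) * x.imJ + (2 * a - c) * x.imK = (0 : ZMod q) := by
    linear_combination e01 + e10
  have k0 : (x.imK : ZMod q) = 0 := by
    apply mul_left_cancel₀ t2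
    linear_combination (-a) * z0 + (2 * c - a) * y0 + 2 * (x.imK : ZMod q) * h
  have j0 : (x.imJ : ZMod q) = 0 := by
    apply mul_left_cancel₀ t2
    linear_combination (-c) * z0 - (2 * a - c) * y0 + 2 * (x.imJ : ZMod q) * h
  exact ⟨r0, i0, j0, k0⟩

theorem cay_girth (h2 : q ≠ 2) (h3 : q ≠ 3) {a c : ZMod q} (h : a ^ 2 - a * c + c ^ 2 + 1 = 0)
    {l : ℕ} (hl : 2 ^ (l + 1) < q ^ 2) : (cay h2 a c h).Girth (2 * l) := by
  intro w hw hr hlen p hp
  -- the length is even
  have hside := Col.side_act (cay h2 a c h) w p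
  rw [hp] at hside
  have heven : w.length % 2 = 0 := by
    rcases Nat.mod_two_eq_zero_or_one w.length with h' | h'
    · exact h'
    · rw [if_pos h'] at hside
      cases hs : (cay h2 a c h).side p <;> rw [hs] at hside <;> simp at hside
  obtain ⟨k, hk⟩ : ∃ k, w.length = 2 * k := ⟨w.length / 2, by omega⟩
  have hk0 : 0 < k := by
    have : 0 < w.length := List.length_pos_iff.mpr hw
    omega
  -- the quaternion is congruent to `2^k`
  have h1 := cay_act h2 a c h w p
  rw [hp, hk] at h1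
  have hsc := sc_even h2 p.1.2 k
  have hrho : O.rho a c (O.W p.1.2 w) = (2 : ZMod q) ^ k • (1 : Matrix (Fin 2) (Fin 2) (ZMod q)) := by
    have h4 : (2 : ZMod q) ^ k • p.1.1 = O.rho a c (O.W p.1.2 w) * p.1.1 := by
      conv_lhs => rw [h1]
      rw [smul_smul, mul_comm, hsc, one_smul]
    have hdet : IsUnit p.1.1.det := by
      rw [p.2]
      have t2 := two_ne h2
      cases p.1.2
      · simp
      · simpa using t2
    have h5 : ((2 : ZMod q) ^ k • (1 : Matrix (Fin 2) (Fin 2) (ZMod q))) * p.1.1 =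
        O.rho a c (O.W p.1.2 w) * p.1.1 := by
      rw [Matrix.smul_mul, Matrix.one_mul, h4]
    have h6 := congrArg (fun M => M * p.1.1⁻¹) h5
    simp only [Matrix.mul_assoc, Matrix.mul_nonsing_inv _ hdet, Matrix.mul_one] at h6
    exact h6.symm
  obtain ⟨r0, r1, r2, r3⟩ := rho_eq h2 h3 h hrho
  set x := O.W p.1.2 w with hx
  have d0 : (q : ℤ) ∣ x.re - 2 ^ k := by
    rw [← ZMod.intCast_zmod_eq_zero_iff_dvd]
    push_cast
    rw [r0, sub_self]
  rw [ZMod.intCast_zmod_eq_zero_iff_dvd] at r1 r2 r3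
  obtain ⟨y0, hy0⟩ := d0
  obtain ⟨y1, hy1⟩ := r1
  obtain ⟨y2, hy2⟩ := r2
  obtain ⟨y3, hy3⟩ := r3
  have hN : O.N x = 4 ^ k := by
    rw [hx, O.N_W, hk, pow_mul]
    norm_num
  have hne : x ≠ 2 ^ k := by
    intro h4
    apply (O.W_not_ev w p.1.2 hr).1
    rw [← hx, h4]
    exact O.ev_two_pow hk0
  have := O.size hq.out h2 hN hne ⟨y0, y1, y2, y3⟩ (by simp only; linarith) hy1 hy2 hy3
  have h7 : 2 ^ (k + 2) ≤ 2 ^ (l + 1) := Nat.pow_le_pow_right (by norm_num) (by omega)
  omega

end

theorem good_prime {q : ℕ} (hq : q.Prime) (h5 : 5 ≤ q) {l : ℕ} (hl : 2 ^ (l + 1) < q ^ 2) :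
    Good (2 * l) (2 * (q * (q ^ 2 - 1))) := by
  have : Fact q.Prime := ⟨hq⟩
  have h2 : q ≠ 2 := by omega
  have h3 : q ≠ 3 := by omega
  obtain ⟨a, c, h⟩ := exists_ac h2 h3
  exact ⟨Vert q, inferInstance, cay h2 a c h, card_vert h2, cay_girth h2 h3 h hl⟩

end H25G
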