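import Mathlib

/-!
Three-edge-coloured cubic bipartite (multi)graphs, given by three perfect matchings `ι 0, ι 1, ι 2`
(involutions swapping the two sides).  Walks are words in the three letters; a non-backtracking walk
is a reduced word.  The girth is at least `g` if no nonempty reduced word of length `< g` has a fixed
point.
-/

namespace H25G

/-- three perfect matchings between the two sides -/
structure Col (X : Type*) where
  ι : Fin 3 → X → X
  side : X → Bool
  invol : ∀ i x, ι i (ι i x) = x
  side_ι : ∀ i x, side (ι i x) = !side x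

/-- reduced words -/
def Red (w : List (Fin 3)) : Prop := w.IsChain (· ≠ ·)

theorem Red.of_eq {w : List (Fin 3)} (h : Red w) (a b c : List (Fin 3)) (e : w = a ++ b ++ c) :
    Red b := by
  subst e
  unfold Red at h ⊢
  rw [List.isChain_append, List.isChain_append] at h
  exact h.1.2.1

theorem not_red_cons_cons {i : Fin 3} {w : List (Fin 3)} : ¬ Red (i :: i :: w) := by
  intro h
  unfold Red at h
  rw [List.isChain_cons_cons] at h
  exact h.1 rfl

namespace Col

variable {X : Type*}

/-- endpoint of the walk with letters `w` starting at `x` -/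
def act (C : Col X) : List (Fin 3) → X → X
  | [], x => x
  | i :: w, x => C.act w (C.ι i x)

@[simp] theorem act_nil (C : Col X) (x : X) : C.act [] x = x := rfl

@[simp] theorem act_cons (C : Col X) (i : Fin 3) (w : List (Fin 3)) (x : X) :
    C.act (i :: w) x = C.act w (C.ι i x) := rfl

theorem act_append (C : Col X) (w w' : List (Fin 3)) (x : X) :
    C.act (w ++ w') x = C.act w' (C.act w x) := by
  induction w generalizing x with
  | nil => rfl
  | cons i w ih => exact ih _

theorem ι_ne (C : Col X) (i : Fin 3) (x : X) : C.ι i x ≠ x := by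
  intro h
  have := C.side_ι i x
  rw [h] at this
  cases hx : C.side x <;> rw [hx] at this <;> simp at this

/-- no nonempty reduced word of length `< g` has a fixed point -/
def Girth (C : Col X) (g : ℕ) : Prop :=
  ∀ w : List (Fin 3), w ≠ [] → Red w → w.length < g → ∀ x, C.act w x ≠ x

theorem exists_cyc (C : Col X) {g : ℕ} (h : ¬ C.Girth g) :
    ∃ w x, w ≠ [] ∧ Red (w ++ w) ∧ w.length < g ∧ C.act w x = x := by
  classical
  unfold Girth at h
  push Not at h
  obtain ⟨w0, a0, b0, c0, x0, d0⟩ := h
  have hex : ∃ n, ∃ w x, w ≠ [] ∧ Red w ∧ w.length = n ∧ C.act w x = x :=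
    ⟨w0.length, w0, x0, a0, b0, rfl, d0⟩
  obtain ⟨w, x, h1, h2, h3, h4⟩ := Nat.find_spec hex
  have hmin : Nat.find hex ≤ w0.length := Nat.find_min' hex ⟨w0, x0, a0, b0, rfl, d0⟩
  refine ⟨w, x, h1, ?_, by omega, h4⟩
  unfold Red
  rw [List.isChain_append]
  refine ⟨h2, h2, ?_⟩
  intro i hi j hj hij
  subst hij
  obtain ⟨w1, rfl⟩ : ∃ w1, w = i :: w1 := by
    cases w with
    | nil => exact absurd rfl h1
    | cons a w1 =>
      simp at hj
      exact ⟨w1, by rw [hj]⟩
  rcases List.eq_nil_or_concat w1 with h5 | ⟨w2, j, h5⟩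
  · subst h5
    exact C.ι_ne i x h4
  · rw [List.concat_eq_append] at h5
    subst h5
    have h6 : j = i := by
      have h7 : (i :: (w2 ++ [j])).getLast? = some j := by
        rw [← List.cons_append, List.getLast?_append]
        simp
      rw [h7] at hi
      simpa using hi
    subst h6
    have hw2 : w2 ≠ [] := by
      rintro rfl
      exact not_red_cons_cons h2
    have h7 : Red w2 := h2.of_eq [j] w2 [j] (by simp)
    have h8 : C.act w2 (C.ι j x) = C.ι j x := by
      rw [act_cons, act_append, act_cons, act_nil] at h4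
      have := congrArg (C.ι j) h4
      rw [C.invol] at this
      exact this
    exact Nat.find_min hex (m := w2.length) (by rw [← h3]; simp)
      ⟨w2, _, hw2, h7, rfl, h8⟩

/-- the walk only uses edges that `C` and `C'` have in common -/
def Unmod (C C' : Col X) : List (Fin 3) → X → Prop
  | [], _ => True
  | i :: w, x => C'.ι i x = C.ι i x ∧ Unmod C C' w (C.ι i x)

theorem Unmod.act_eq {C C' : Col X} {w : List (Fin 3)} {x : X} (h : Unmod C C' w x) :
    C'.act w x = C.act w x := by
  induction w generalizing x with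
  | nil => rfl
  | cons i w ih =>
    rw [act_cons, act_cons, h.1]
    exact ih h.2

theorem split (C C' : Col X) (w : List (Fin 3)) (x : X) : Unmod C C' w x ∨
    ∃ w1 i w2, w = w1 ++ i :: w2 ∧ Unmod C C' w1 x ∧
      C'.ι i (C.act w1 x) ≠ C.ι i (C.act w1 x) := by
  induction w generalizing x with
  | nil => exact Or.inl trivial
  | cons i w ih =>
    by_cases h : C'.ι i x = C.ι i x
    · rcases ih (C.ι i x) with h1 | ⟨w1, j, w2, h1, h2, h3⟩
      · exact Or.inl ⟨h, h1⟩
      · exact Or.inr ⟨i :: w1, j, w2, by rw [h1]; rfl, ⟨h, h2⟩, h3⟩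
    · exact Or.inr ⟨[], i, w, rfl, trivial, h⟩

theorem girth_mod (C C' : Col X) {g : ℕ}
    (h0 : ∀ w x, w ≠ [] → Red w → w.length < g → Unmod C C' w x → C.act w x ≠ x)
    (h1 : ∀ i w z, Red (i :: w ++ [i]) → C'.act (i :: w) z = z → C'.ι i z ≠ C.ι i z →
      g ≤ w.length + 1) : C'.Girth g := by
  by_contra hcon
  obtain ⟨w, x, hw, hr, hl, hf⟩ := C'.exists_cyc hcon
  rcases split C C' w x with hu | ⟨w1, i, w2, he, hu, hm⟩
  · exact h0 w x hw (hr.of_eq [] w w (by simp)) hl hu (by rw [← hu.act_eq]; exact hf)
  · have h2 := h1 i (w2 ++ w1) (C.act w1 x) (hr.of_eq w1 _ w2 (by rw [he]; simp)) (by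
      rw [← hu.act_eq, ← List.cons_append, act_append]
      congr 1
      rw [← act_append, ← he]
      exact hf) hm
    rw [List.length_append] at h2
    have h3 : w.length = w1.length + (w2.length + 1) := by rw [he]; simp
    omega

theorem act_mem (C : Col X) {S : Set X} (hS : ∀ i x, x ∈ S → C.ι i x ∈ S) (w : List (Fin 3)) {x : X}
    (hx : x ∈ S) : C.act w x ∈ S := by
  induction w generalizing x with
  | nil => exact hx
  | cons i w ih => exact ih (hS i x hx)

/-- an excursion into a component with only one modified edge is long -/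
theorem exc (C C' : Col X) {g : ℕ} {S : Set X} (hS : ∀ i x, x ∈ S → C.ι i x ∈ S)
    (hg : ∀ w, w ≠ [] → Red w → w.length < g → ∀ x ∈ S, C.act w x ≠ x) {j : Fin 3} {e : X} (he : e ∈ S)
    (hmod : ∀ z ∈ S, ∀ i, C'.ι i z ≠ C.ι i z → i = j ∧ (z = e ∨ z = C.ι j e))
    {w : List (Fin 3)} (hw : Red (j :: w)) {p : X} (hp : p = e ∨ p = C.ι j e)
    (hout : C'.act w p ∉ S) : g ≤ w.length := by
  have hpS : p ∈ S := by
    rcases hp with h | h
    · rw [h]; exact he
    · rw [h]; exact hS j e he
  rcases split C C' w p with hu | ⟨w1, i, w2, h1, hu, hm⟩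
  · exfalso
    apply hout
    rw [hu.act_eq]
    exact C.act_mem hS w hpS
  · have hz : C.act w1 p ∈ S := C.act_mem hS w1 hpS
    obtain ⟨hij, hz'⟩ := hmod _ hz i hm
    subst hij
    have hzp : C.act w1 p = p ∨ C.act w1 p = C.ι i p := by
      rcases hp with h | h <;> rcases hz' with h' | h'
      · left; rw [h', h]
      · right; rw [h', h]
      · right; rw [h', h, C.invol]
      · left; rw [h', h]
    have hlen : w.length = w1.length + (w2.length + 1) := by rw [h1]; simp
    rcases hzp with h | h
    · by_cases hw1 : w1 = []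
      · exfalso
        subst hw1
        rw [h1] at hw
        exact not_red_cons_cons hw
      · by_contra hcon
        exact hg w1 hw1 (hw.of_eq [i] w1 (i :: w2) (by rw [h1]; simp)) (by omega) p hpS h
    · by_contra hcon
      refine hg (w1 ++ [i]) (by simp) (hw.of_eq [i] _ w2 (by rw [h1]; simp)) (by simp; omega) p hpS ?_
      rw [act_append, h, act_cons, act_nil, C.invol]

end Col

end H25G
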