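import Pool.Agent.H25G.Ops

/-! a three-edge-coloured cubic bipartite graph of girth `≥ g` can be made connected by switching
pairs of edges, without changing the vertex set and without creating cycles of length `< g` -/

namespace H25G

namespace Col

variable {X : Type*}

/-- the component of `x` -/
def reach (C : Col X) (x : X) : Set X := {y | ∃ w, C.act w x = y}

theorem self_mem_reach (C : Col X) (x : X) : x ∈ C.reach x := ⟨[], rfl⟩

theorem reach_step (C : Col X) {x y : X} (h : y ∈ C.reach x) (i : Fin 3) : C.ι i y ∈ C.reach x := by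
  obtain ⟨w, rfl⟩ := h
  exact ⟨w ++ [i], by rw [act_append]; rfl⟩

theorem reach_trans (C : Col X) {x y z : X} (h : y ∈ C.reach x) (h' : z ∈ C.reach y) :
    z ∈ C.reach x := by
  obtain ⟨w, rfl⟩ := h
  obtain ⟨w', rfl⟩ := h'
  exact ⟨w ++ w', act_append _ _ _ _⟩

theorem act_reverse (C : Col X) (w : List (Fin 3)) (x : X) : C.act w.reverse (C.act w x) = x := by
  induction w generalizing x with
  | nil => rfl
  | cons i w ih => rw [List.reverse_cons, act_append, act_cons, act_cons, ih, act_nil, C.invol]

theorem reach_symm (C : Col X) {x y : X} (h : y ∈ C.reach x) : x ∈ C.reach y := by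
  obtain ⟨w, rfl⟩ := h
  exact ⟨w.reverse, C.act_reverse w x⟩

open Classical in
/-- the edges of colour `0` at `a` and `b` are switched -/
noncomputable def sw (C : Col X) (a b : X) (ha : C.side a = false) (hb : C.side b = false)
    (hab : a ≠ b) : Col X where
  ι i z := if i = 0 then
      (if z = a then C.ι 0 b else if z = b then C.ι 0 a else if z = C.ι 0 a then b
        else if z = C.ι 0 b then a else C.ι 0 z)
    else C.ι i z
  side := C.side
  invol i z := by
    have e1 : C.side (C.ι 0 a) = true := by rw [C.side_ι, ha]; rfl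
    have e2 : C.side (C.ι 0 b) = true := by rw [C.side_ι, hb]; rfl
    have n1 : C.ι 0 a ≠ a := C.ι_ne 0 a
    have n2 : C.ι 0 b ≠ b := C.ι_ne 0 b
    have n3 : C.ι 0 a ≠ b := fun h => by rw [h, hb] at e1; exact absurd e1 (by simp)
    have n4 : C.ι 0 b ≠ a := fun h => by rw [h, ha] at e2; exact absurd e2 (by simp)
    have n5 : C.ι 0 b ≠ C.ι 0 a := fun h => hab (by rw [← C.invol 0 a, ← h, C.invol])
    by_cases hi : i = 0
    · subst hi
      by_cases h1 : z = a
      · subst h1
        simp [n4, n2, n5]
      by_cases h2 : z = b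
      · subst h2
        simp [n1, n3, hab.symm]
      by_cases h3 : z = C.ι 0 a
      · subst h3
        simp [n1, n3, hab.symm]
      by_cases h4 : z = C.ι 0 b
      · subst h4
        simp [n2, n4, n5]
      · have m1 : C.ι 0 z ≠ a := fun h => h3 (by rw [← h, C.invol])
        have m2 : C.ι 0 z ≠ b := fun h => h4 (by rw [← h, C.invol])
        have m3 : C.ι 0 z ≠ C.ι 0 a := fun h => h1 (by rw [← C.invol 0 z, h, C.invol])
        have m4 : C.ι 0 z ≠ C.ι 0 b := fun h => h2 (by rw [← C.invol 0 z, h, C.invol])
        simp [h1, h2, h3, h4, m1, m2, m3, m4, C.invol]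
    · simp [hi, C.invol]
  side_ι i z := by
    have e1 : C.side (C.ι 0 a) = true := by rw [C.side_ι, ha]; rfl
    have e2 : C.side (C.ι 0 b) = true := by rw [C.side_ι, hb]; rfl
    by_cases hi : i = 0
    · subst hi
      by_cases h1 : z = a
      · subst h1
        simp [e2, ha]
      by_cases h2 : z = b
      · subst h2
        simp [e1, hb, hab.symm]
      by_cases h3 : z = C.ι 0 a
      · subst h3
        simp [e1, hb, h1, h2]
      by_cases h4 : z = C.ι 0 b
      · subst h4
        simp only [↓reduceIte, h1, h2, h3]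
        rw [e2, ha]; rfl
      · simp [h1, h2, h3, h4, C.side_ι]
    · simp [hi, C.side_ι]

section

variable (C : Col X) (a b : X) (ha : C.side a = false) (hb : C.side b = false) (hab : a ≠ b)

theorem sw_ι_of_ne {i : Fin 3} (hi : i ≠ 0) (z : X) : (C.sw a b ha hb hab).ι i z = C.ι i z := by
  simp [sw, hi]

theorem sw_ι_zero {z : X} (h1 : z ≠ a) (h2 : z ≠ b) (h3 : z ≠ C.ι 0 a) (h4 : z ≠ C.ι 0 b) :
    (C.sw a b ha hb hab).ι 0 z = C.ι 0 z := by
  simp [sw, h1, h2, h3, h4]

theorem sw_ι_a : (C.sw a b ha hb hab).ι 0 a = C.ι 0 b := by simp [sw]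

theorem sw_ι_b : (C.sw a b ha hb hab).ι 0 b = C.ι 0 a := by simp [sw, hab.symm]

theorem sw_ι_ιa : (C.sw a b ha hb hab).ι 0 (C.ι 0 a) = b := by
  rw [← sw_ι_b C a b ha hb hab, (C.sw a b ha hb hab).invol]

theorem sw_ι_ιb : (C.sw a b ha hb hab).ι 0 (C.ι 0 b) = a := by
  rw [← sw_ι_a C a b ha hb hab, (C.sw a b ha hb hab).invol]

theorem sw_mod {i : Fin 3} {z : X} (h : (C.sw a b ha hb hab).ι i z ≠ C.ι i z) :
    i = 0 ∧ (z = a ∨ z = b ∨ z = C.ι 0 a ∨ z = C.ι 0 b) := by
  by_cases hi : i = 0
  · refine ⟨hi, ?_⟩
    by_contra hcon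
    push Not at hcon
    subst hi
    exact h (sw_ι_zero C a b ha hb hab hcon.1 hcon.2.1 hcon.2.2.1 hcon.2.2.2)
  · exact absurd (sw_ι_of_ne C a b ha hb hab hi z) h

theorem sw_girth {g : ℕ} (hg : C.Girth g) {S : Set X} (hS : ∀ i x, x ∈ S → C.ι i x ∈ S)
    (haS : a ∈ S) (hbS : b ∉ S) : (C.sw a b ha hb hab).Girth g := by
  have hS' : ∀ i x, x ∈ Sᶜ → C.ι i x ∈ Sᶜ := by
    intro i x hx h
    apply hx
    rw [← C.invol i x]
    exact hS i _ h
  have hg' : ∀ T : Set X, ∀ w, w ≠ [] → Red w → w.length < g → ∀ x ∈ T, C.act w x ≠ x :=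
    fun T w h1 h2 h3 x _ => hg w h1 h2 h3 x
  apply girth_mod C
  · intro w z hw hr hl _
    exact hg w hw hr hl z
  · intro i w z hr hf hm
    have hrw : Red (i :: w) := hr.of_eq [] _ [i] (by simp)
    obtain ⟨hi, hz⟩ := sw_mod C a b ha hb hab hm
    subst hi
    rw [act_cons] at hf
    by_cases hzS : z ∈ S
    · have hp : (C.sw a b ha hb hab).ι 0 z = b ∨ (C.sw a b ha hb hab).ι 0 z = C.ι 0 b := by
        rcases hz with h | h | h | h
        · right; rw [h]; exact sw_ι_a C a b ha hb hab
        · exact absurd (h ▸ hzS) hbS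
        · left; rw [h]; exact sw_ι_ιa C a b ha hb hab
        · exact absurd (h ▸ hzS) (hS' 0 b hbS)
      have h3 := exc C (C.sw a b ha hb hab) hS' (hg' _) (j := 0) (e := b) hbS (by
        intro y hy j hj
        obtain ⟨h1, h2⟩ := sw_mod C a b ha hb hab hj
        refine ⟨h1, ?_⟩
        rcases h2 with h | h | h | h
        · exact absurd haS (h ▸ hy)
        · exact Or.inl h
        · exact absurd (hS 0 a haS) (h ▸ hy)
        · exact Or.inr h) (w := w) hrw hp (by rw [hf]; exact fun h => h hzS)
      omega
    · have hp : (C.sw a b ha hb hab).ι 0 z = a ∨ (C.sw a b ha hb hab).ι 0 z = C.ι 0 a := by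
        rcases hz with h | h | h | h
        · exact absurd haS (h ▸ hzS)
        · right; rw [h]; exact sw_ι_b C a b ha hb hab
        · exact absurd (hS 0 a haS) (h ▸ hzS)
        · left; rw [h]; exact sw_ι_ιb C a b ha hb hab
      have h3 := exc C (C.sw a b ha hb hab) hS (hg' _) (j := 0) (e := a) haS (by
        intro y hy j hj
        obtain ⟨h1, h2⟩ := sw_mod C a b ha hb hab hj
        refine ⟨h1, ?_⟩
        rcases h2 with h | h | h | h
        · exact Or.inl h
        · exact absurd (h ▸ hy) hbS
        · exact Or.inr h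
        · exact absurd (h ▸ hy) (hS' 0 b hbS)) (w := w) hrw hp (by rw [hf]; exact hzS)
      omega

/-- the edge `a -- ι 0 a` is not a bridge -/
theorem sw_path [Finite X] {S : Set X} (hS : ∀ i x, x ∈ S → C.ι i x ∈ S)
    (haS : a ∈ S) (hbS : b ∉ S) : a ∈ (C.sw a b ha hb hab).reach (C.ι 0 a) := by
  set C' := C.sw a b ha hb hab with hC'
  have hS' : C.ι 0 b ∉ S := by
    intro h
    apply hbS
    rw [← C.invol 0 b]
    exact hS 0 _ h
  -- the permutation given by colour 1 followed by colour 0
  set f : X → X := fun z => C.ι 0 (C.ι 1 z) with hf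
  have hinj : Function.Injective f := by
    intro z z' h
    have h1 := congrArg (C.ι 0) h
    simp only [hf, C.invol] at h1
    have h2 := congrArg (C.ι 1) h1
    simpa only [C.invol] using h2
  set y := C.ι 0 a with hy
  have hys : C.side y = true := by rw [hy, C.side_ι, ha]; rfl
  have hper : ∃ n, 0 < n ∧ f^[n] y = y := by
    have := hinj.mem_periodicPts y
    rw [Function.mem_periodicPts] at this
    exact this
  classical
  obtain ⟨hn0, hn⟩ := Nat.find_spec hper
  have hmin : ∀ k, 0 < k → k < Nat.find hper → f^[k] y ≠ y := by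
    intro k h1 h2 h3
    exact Nat.find_min hper h2 ⟨h1, h3⟩
  set n := Nat.find hper
  have hmem : ∀ k, f^[k] y ∈ S ∧ C.side (f^[k] y) = true := by
    intro k
    induction k with
    | zero => exact ⟨hS 0 a haS, hys⟩
    | succ k ih =>
      rw [Function.iterate_succ_apply']
      refine ⟨hS 0 _ (hS 1 _ ih.1), ?_⟩
      simp only [hf]
      rw [C.side_ι, C.side_ι, ih.2]; rfl
  have hreach : ∀ k, k < n → f^[k] y ∈ C'.reach y := by
    intro k
    induction k with
    | zero => intro _; exact C'.self_mem_reach y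
    | succ k ih =>
      intro hk
      have h1 := ih (by omega)
      rw [Function.iterate_succ_apply']
      have h2 := C'.reach_step h1 1
      rw [hC', sw_ι_of_ne C a b ha hb hab (by decide), ← hC'] at h2
      have h3 := C'.reach_step h2 0
      have hz : C.side (C.ι 1 (f^[k] y)) = false := by rw [C.side_ι, (hmem k).2]; rfl
      have hzS : C.ι 1 (f^[k] y) ∈ S := hS 1 _ (hmem k).1
      rw [hC', sw_ι_zero C a b ha hb hab, ← hC'] at h3
      · exact h3
      · intro h
        apply hmin (k + 1) (by omega) hk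
        rw [Function.iterate_succ_apply']
        simp only [hf]
        rw [h]
      · intro h
        rw [h] at hzS
        exact hbS hzS
      · intro h
        rw [h, ← hy, hys] at hz
        exact absurd hz (by simp)
      · intro h
        rw [h] at hzS
        exact hS' hzS
  have hlast := hreach (n - 1) (by omega)
  have h1 := C'.reach_step hlast 1
  rw [hC', sw_ι_of_ne C a b ha hb hab (by decide), ← hC'] at h1
  have h2 : C.ι 1 (f^[n - 1] y) = a := by
    have h3 : f (f^[n - 1] y) = y := by
      rw [← Function.iterate_succ_apply' f]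
      have : (n - 1).succ = n := by omega
      rw [this]
      exact hn
    simp only [hf] at h3
    rw [← C.invol 0 (C.ι 1 (f^[n - 1] y)), h3, hy, C.invol]
  rw [h2] at h1
  exact h1

theorem sw_reach [Finite X] (hbS : b ∉ C.reach a) :
    C.reach a ⊆ (C.sw a b ha hb hab).reach a ∧ b ∈ (C.sw a b ha hb hab).reach a := by
  set C' := C.sw a b ha hb hab with hC'
  have hS : ∀ i x, x ∈ C.reach a → C.ι i x ∈ C.reach a := fun i x h => C.reach_step h i
  have hya : C.ι 0 a ∈ C'.reach a := by
    apply C'.reach_symm
    exact sw_path C a b ha hb hab hS (C.self_mem_reach a) hbS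
  have hb' : b ∈ C'.reach a := by
    have := C'.reach_step hya 0
    rw [hC', sw_ι_ιa, ← hC'] at this
    exact this
  refine ⟨?_, hb'⟩
  have key : ∀ w x, x ∈ C.reach a → x ∈ C'.reach a → C.act w x ∈ C'.reach a := by
    intro w
    induction w with
    | nil => intro x _ h; exact h
    | cons i w ih =>
      intro x h1 h2
      apply ih _ (hS i x h1)
      by_cases hm : C'.ι i x = C.ι i x
      · rw [← hm]
        exact C'.reach_step h2 i
      · obtain ⟨hi, h3⟩ := sw_mod C a b ha hb hab hm
        subst hi
        rcases h3 with h | h | h | h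
        · rw [h]; exact hya
        · exact absurd (h ▸ h1) hbS
        · rw [h, C.invol]; exact C'.self_mem_reach a
        · exfalso
          apply hbS
          rw [← C.invol 0 b, ← h]
          exact hS 0 x h1
  rintro x ⟨w, rfl⟩
  exact key w a (C.self_mem_reach a) (C'.self_mem_reach a)

end

theorem exists_conn [Finite X] {g : ℕ} (C : Col X) (hg : C.Girth g) (a : X)
    (ha : C.side a = false) : ∃ C' : Col X, C'.Girth g ∧ C'.side = C.side ∧ C'.reach a = Set.univ := by
  classical
  have key : ∀ n, ∀ C : Col X, C.Girth g → C.side a = false → (C.reach a)ᶜ.ncard = n →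
      ∃ C' : Col X, C'.Girth g ∧ C'.side = C.side ∧ C'.reach a = Set.univ := by
    intro n
    induction n using Nat.strong_induction_on with
    | _ n ih =>
      intro C hg ha hn
      by_cases hall : C.reach a = Set.univ
      · exact ⟨C, hg, rfl, hall⟩
      · obtain ⟨b, hb, hbs⟩ : ∃ b, b ∉ C.reach a ∧ C.side b = false := by
          rw [Set.eq_univ_iff_forall] at hall
          push Not at hall
          obtain ⟨b, hb⟩ := hall
          cases hs : C.side b
          · exact ⟨b, hb, hs⟩
          · refine ⟨C.ι 0 b, fun h => hb ?_, by rw [C.side_ι, hs]; rfl⟩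
            rw [← C.invol 0 b]
            exact C.reach_step h 0
        have hab : a ≠ b := by
          rintro rfl
          exact hb (C.self_mem_reach a)
        obtain ⟨h1, h2⟩ := sw_reach C a b ha hbs hab hb
        have hlt : ((C.sw a b ha hbs hab).reach a)ᶜ.ncard < n := by
          rw [← hn]
          apply Set.ncard_lt_ncard _ (Set.toFinite _)
          rw [Set.ssubset_iff_of_subset (Set.compl_subset_compl.mpr h1)]
          exact ⟨b, hb, fun h => h h2⟩
        obtain ⟨C', c1, c2, c3⟩ := ih _ hlt (C.sw a b ha hbs hab)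
          (sw_girth C a b ha hbs hab hg (S := C.reach a) (fun i x h => C.reach_step h i)
            (C.self_mem_reach a) hb) ha rfl
        exact ⟨C', c1, c2, c3⟩
  exact key _ C hg ha rfl

end Col

end H25G
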