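import Mathlib

/-! three-dimensional Hilbert cubes at a prescribed scale in dense sets of integers -/

namespace H25G

open Finset

/-- translate of a finite set -/
def tr (P : Finset ℕ) (a : ℕ) : Finset ℕ := P.image (· + a)

theorem card_tr (P : Finset ℕ) (a : ℕ) : (tr P a).card = P.card :=
  card_image_of_injective _ (add_left_injective a)

theorem bonferroni (P : Finset ℕ) (s n : ℕ) :
    n * P.card ≤ ((range n).biUnion (fun i => tr P (i * s))).card +
      ∑ j ∈ range n, ∑ i ∈ range j, (tr P (i * s) ∩ tr P (j * s)).card := by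
  induction n with
  | zero => simp
  | succ n ih =>
    rw [sum_range_succ, range_add_one, biUnion_insert, union_comm]
    set U := (range n).biUnion (fun i => tr P (i * s)) with hU
    have h1 : (U ∪ tr P (n * s)).card + (U ∩ tr P (n * s)).card = U.card + P.card := by
      rw [card_union_add_card_inter, card_tr]
    have h2 : (U ∩ tr P (n * s)).card ≤ ∑ i ∈ range n, (tr P (i * s) ∩ tr P (n * s)).card := by
      have h3 : U ∩ tr P (n * s) = (range n).biUnion (fun i => tr P (i * s) ∩ tr P (n * s)) := by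
        ext x
        simp only [hU, mem_inter, mem_biUnion]
        constructor
        · rintro ⟨⟨i, h4, h5⟩, h6⟩
          exact ⟨i, h4, h5, h6⟩
        · rintro ⟨i, h4, h5, h6⟩
          exact ⟨⟨i, h4, h5⟩, h6⟩
      rw [h3]
      exact card_biUnion_le
    have h4 : (n + 1) * P.card = n * P.card + P.card := by ring
    omega

/-- the elements of `P` whose translate by `a` is also in `P` -/
def sh (P : Finset ℕ) (a : ℕ) : Finset ℕ := P.filter (fun x => x + a ∈ P)

theorem card_inter_tr (P : Finset ℕ) {a b : ℕ} (h : a ≤ b) :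
    (tr P a ∩ tr P b).card ≤ (sh P (b - a)).card := by
  have h1 : tr P a ∩ tr P b ⊆ tr (sh P (b - a)) b := by
    intro y hy
    rw [mem_inter] at hy
    obtain ⟨h2, h3⟩ := hy
    unfold tr at h2 h3 ⊢
    rw [mem_image] at h2 h3 ⊢
    obtain ⟨x, hx, rfl⟩ := h2
    obtain ⟨z, hz, hzx⟩ := h3
    refine ⟨z, ?_, hzx⟩
    unfold sh
    rw [mem_filter]
    refine ⟨hz, ?_⟩
    have : z + (b - a) = x := by omega
    rw [this]
    exact hx
  exact (card_le_card h1).trans (card_tr _ _).le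

/-- a popular difference at scale `s` -/
theorem exists_diff (P : Finset ℕ) {Q K s : ℕ} (hP : ∀ x ∈ P, x < Q) (hK : 0 < K)
    (hd : Q ≤ K * P.card) (hs : 4 * K * s ≤ Q) (hs0 : 0 < s) :
    ∃ a, s ≤ a ∧ a ≤ 4 * K * s ∧ Q ≤ 4 * K ^ 2 * (sh P a).card := by
  by_contra hcon
  push Not at hcon
  have hQ : 0 < Q := lt_of_lt_of_le (by positivity) hs
  have h1 := bonferroni P s (4 * K)
  have h2 : ((range (4 * K)).biUnion (fun i => tr P (i * s))).card ≤ 2 * Q := by
    have h3 : (range (4 * K)).biUnion (fun i => tr P (i * s)) ⊆ range (2 * Q) := by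
      intro y hy
      rw [mem_biUnion] at hy
      obtain ⟨i, hi, hy⟩ := hy
      unfold tr at hy
      rw [mem_image] at hy
      obtain ⟨x, hx, rfl⟩ := hy
      rw [mem_range] at hi ⊢
      have h4 := hP x hx
      have h5 : i * s ≤ 4 * K * s := Nat.mul_le_mul_right s hi.le
      omega
    have := card_le_card h3
    rwa [card_range] at this
  have h3 : 4 * K ^ 2 * ∑ j ∈ range (4 * K), ∑ i ∈ range j, (tr P (i * s) ∩ tr P (j * s)).card ≤
      (∑ j ∈ range (4 * K), j) * Q := by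
    rw [mul_sum, sum_mul]
    apply sum_le_sum
    intro j hj
    rw [mem_range] at hj
    rw [mul_sum]
    have h4 : ∀ i ∈ range j, 4 * K ^ 2 * (tr P (i * s) ∩ tr P (j * s)).card ≤ Q := by
      intro i hi
      rw [mem_range] at hi
      have h5 : i * s ≤ j * s := Nat.mul_le_mul_right s hi.le
      have h6 := card_inter_tr P h5
      have h7 : j * s - i * s = (j - i) * s := (Nat.sub_mul _ _ _).symm
      rw [h7] at h6
      have h8 : s ≤ (j - i) * s := Nat.le_mul_of_pos_left s (by omega)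
      have h9 : (j - i) * s ≤ 4 * K * s := Nat.mul_le_mul_right s (by omega)
      have h10 := hcon _ h8 h9
      exact (Nat.mul_le_mul_left _ h6).trans h10.le
    have h5 := sum_le_card_nsmul (range j) _ Q h4
    rwa [card_range, smul_eq_mul] at h5
  have h4 := sum_range_id_mul_two (4 * K)
  set T := ∑ j ∈ range (4 * K), ∑ i ∈ range j, (tr P (i * s) ∩ tr P (j * s)).card with hT
  set S := ∑ j ∈ range (4 * K), j with hS
  have h5 : T < 2 * Q := by
    have h6 : S * 2 < 16 * K ^ 2 := by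
      rw [h4]
      have : 4 * K - 1 < 4 * K := by omega
      calc 4 * K * (4 * K - 1) < 4 * K * (4 * K) := Nat.mul_lt_mul_of_pos_left this (by omega)
        _ = 16 * K ^ 2 := by ring
    have h7 : 4 * K ^ 2 * T < 4 * K ^ 2 * (2 * Q) := by
      calc 4 * K ^ 2 * T ≤ S * Q := h3
        _ < 8 * K ^ 2 * Q := Nat.mul_lt_mul_of_pos_right (by omega) hQ
        _ = 4 * K ^ 2 * (2 * Q) := by ring
    exact Nat.lt_of_mul_lt_mul_left h7
  have h6 : 4 * Q ≤ 4 * K * P.card := by
    calc 4 * Q ≤ 4 * (K * P.card) := Nat.mul_le_mul_left 4 hd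
      _ = 4 * K * P.card := by ring
  omega

/-- a Hilbert cube at scale `s` -/
theorem exists_cube (P : Finset ℕ) {Q K s : ℕ} (hP : ∀ x ∈ P, x < Q) (hK : 0 < K)
    (hd : Q ≤ K * P.card) (hs : 2 ^ 8 * K ^ 4 * s ≤ Q) (hs0 : 0 < s) :
    ∃ x a b c, x ∈ P ∧ x + a ∈ P ∧ x + b ∈ P ∧ x + c ∈ P ∧ x + a + b ∈ P ∧ x + a + c ∈ P ∧
      x + b + c ∈ P ∧ x + a + b + c ∈ P ∧ s ≤ a ∧ s ≤ b ∧ s ≤ c ∧ a * b * c ≤ 2 ^ 14 * K ^ 7 * s ^ 3 := by
  have hQ : 0 < Q := lt_of_lt_of_le (by positivity) hs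
  have hK1 : 1 ≤ K := hK
  have e1 : K ≤ K ^ 4 := Nat.le_self_pow (by norm_num) K
  have e2 : K ^ 2 ≤ K ^ 4 := Nat.pow_le_pow_right hK (by norm_num)
  obtain ⟨a, ha1, ha2, ha3⟩ := exists_diff P hP hK hd
    (le_trans (Nat.mul_le_mul_right s (by nlinarith)) hs) hs0
  have hP1 : ∀ x ∈ sh P a, x < Q := fun x hx => hP x (mem_filter.mp hx).1
  obtain ⟨b, hb1, hb2, hb3⟩ := exists_diff (sh P a) hP1 (K := 4 * K ^ 2) (by positivity) ha3
    (le_trans (Nat.mul_le_mul_right s (by nlinarith)) hs) hs0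
  have hP2 : ∀ x ∈ sh (sh P a) b, x < Q := fun x hx => hP1 x (mem_filter.mp hx).1
  obtain ⟨c, hc1, hc2, hc3⟩ := exists_diff (sh (sh P a) b) hP2 (K := 4 * (4 * K ^ 2) ^ 2)
    (by positivity) hb3 (le_trans (Nat.mul_le_mul_right s (by nlinarith)) hs) hs0
  have hne : (sh (sh (sh P a) b) c).Nonempty := by
    rw [← card_pos]
    by_contra hcon
    have h0 : (sh (sh (sh P a) b) c).card = 0 := by omega
    rw [h0] at hc3
    omega
  obtain ⟨x, hx⟩ := hne
  simp only [sh, mem_filter] at hx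
  obtain ⟨⟨⟨x1, x2⟩, x3, x4⟩, ⟨x5, x6⟩, x7, x8⟩ := hx
  refine ⟨x, a, b, c, x1, x2, x3, x5, ?_, ?_, ?_, ?_, ha1, hb1, hc1, ?_⟩
  · rw [add_right_comm]; exact x4
  · rw [add_right_comm]; exact x6
  · rw [add_right_comm]; exact x7
  · have : x + a + b + c = x + c + b + a := by ring
    rw [this]; exact x8
  · calc a * b * c ≤ (4 * K * s) * (4 * (4 * K ^ 2) * s) * (4 * (4 * (4 * K ^ 2) ^ 2) * s) :=
        Nat.mul_le_mul (Nat.mul_le_mul ha2 hb2) hc2
      _ = 2 ^ 14 * K ^ 7 * s ^ 3 := by ring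

/-- the order of the graph attached to the prime `q` -/
def fq (q : ℕ) : ℕ := 2 * (q * (q ^ 2 - 1))

theorem fq_cast (q : ℕ) : (fq q : ℤ) = 2 * q ^ 3 - 2 * q := by
  unfold fq
  rcases Nat.eq_zero_or_pos q with h | h
  · subst h; simp
  · have h1 : 1 ≤ q ^ 2 := Nat.one_le_pow _ _ h
    push_cast [Nat.cast_sub h1]
    ring

theorem fq_le {q Q : ℕ} (h : q ≤ Q) : fq q ≤ 2 * Q ^ 3 := by
  unfold fq
  have h1 : q ^ 2 - 1 ≤ Q ^ 2 := (Nat.sub_le _ _).trans (Nat.pow_le_pow_left h 2)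
  calc 2 * (q * (q ^ 2 - 1)) ≤ 2 * (Q * Q ^ 2) := Nat.mul_le_mul_left 2 (Nat.mul_le_mul h h1)
    _ = 2 * Q ^ 3 := by ring

theorem fq_even (q : ℕ) : fq q % 2 = 0 := by unfold fq; omega

/-- the third difference of `fq` -/
theorem fq_diff (x a b c : ℕ) :
    fq (x + a) + fq (x + b) + fq (x + c) + fq (x + a + b + c) =
      fq x + fq (x + a + b) + fq (x + a + c) + fq (x + b + c) + 12 * (a * b * c) := by
  zify
  simp only [fq_cast]
  push_cast
  ring

end H25G
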