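import Pool.Agent.H25G.Conn

/-! from three-edge-coloured graphs to simple graphs -/

namespace H25G

open SimpleGraph

namespace Col

variable {X : Type*}

/-- the underlying graph -/
def gr (C : Col X) : SimpleGraph X where
  Adj x y := ∃ i, C.ι i x = y
  symm := ⟨by
    rintro x y ⟨i, rfl⟩
    exact ⟨i, C.invol i x⟩⟩
  loopless := ⟨by
    rintro x ⟨i, h⟩
    exact C.ι_ne i x h⟩

/-- transport along a bijection -/
def map {Y : Type*} (C : Col X) (e : X ≃ Y) : Col Y where
  ι i y := e (C.ι i (e.symm y))
  side y := C.side (e.symm y)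
  invol i y := by simp [C.invol]
  side_ι i y := by simp [C.side_ι]

theorem map_act {Y : Type*} (C : Col X) (e : X ≃ Y) (w : List (Fin 3)) (y : Y) :
    (C.map e).act w y = e (C.act w (e.symm y)) := by
  induction w generalizing y with
  | nil => simp
  | cons i w ih =>
    rw [act_cons, ih]
    simp [map]

theorem Girth.map {Y : Type*} {C : Col X} {g : ℕ} (hC : C.Girth g) (e : X ≃ Y) :
    (C.map e).Girth g := by
  intro w h1 h2 h3 y h
  rw [map_act] at h
  apply hC w h1 h2 h3 (e.symm y)
  apply e.injective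
  rw [h]
  simp

theorem exists_word (C : Col X) {x y : X} (p : C.gr.Walk x y) (hp : p.IsTrail) :
    ∃ w, Red w ∧ w.length = p.length ∧ C.act w x = y ∧
      ∀ i w', w = i :: w' → s(x, C.ι i x) ∈ p.edges := by
  induction p with
  | nil => exact ⟨[], List.isChain_nil, rfl, rfl, by simp⟩
  | @cons u v z h p ih =>
    rw [Walk.isTrail_cons] at hp
    obtain ⟨w, h1, h2, h3, h4⟩ := ih hp.1
    have h' : ∃ i, C.ι i u = v := h
    obtain ⟨i, hi⟩ := h'
    refine ⟨i :: w, ?_, by simp [h2], by rw [act_cons, hi]; exact h3, ?_⟩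
    · cases w with
      | nil => exact List.isChain_singleton _
      | cons j w' =>
        unfold Red
        rw [List.isChain_cons_cons]
        refine ⟨?_, h1⟩
        rintro rfl
        have h5 := h4 i w' rfl
        have h6 : C.ι i v = u := by rw [← hi, C.invol]
        rw [h6] at h5
        apply hp.2
        rw [Sym2.eq_swap]
        exact h5
    · intro j w' hw
      rw [List.cons.injEq] at hw
      obtain ⟨rfl, _⟩ := hw
      rw [hi]
      simp

theorem egirth_gr (C : Col X) {g : ℕ} (hg : C.Girth g) : (g : ℕ∞) ≤ C.gr.egirth := by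
  rw [le_egirth]
  intro a p hp
  obtain ⟨w, h1, h2, h3, _⟩ := C.exists_word p hp.isCircuit.isTrail
  have h4 := hp.three_le_length
  by_contra hcon
  push Not at hcon
  have h5 : p.length < g := by exact_mod_cast hcon
  exact hg w (by rintro rfl; simp at h2; omega) h1 (by omega) a h3

theorem ι_injective (C : Col X) {g : ℕ} (hg : C.Girth g) (h3 : 3 ≤ g) (x : X) :
    Function.Injective (fun i => C.ι i x) := by
  intro i j hij
  by_contra hne
  refine hg [i, j] (by simp) ?_ (by simp; omega) x ?_
  · unfold Red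
    rw [List.isChain_pair]
    exact hne
  · rw [act_cons, act_cons, act_nil]
    have : C.ι i x = C.ι j x := hij
    rw [this, C.invol]

theorem neighborSet_gr (C : Col X) (x : X) : C.gr.neighborSet x = Set.range (fun i => C.ι i x) := by
  ext y
  simp [gr]

theorem cubic_gr (C : Col X) {g : ℕ} (hg : C.Girth g) (h3 : 3 ≤ g) (x : X) :
    (C.gr.neighborSet x).ncard = 3 := by
  rw [neighborSet_gr, ← Set.image_univ, Set.ncard_image_of_injective _ (C.ι_injective hg h3 x)]
  simp

theorem colorable_gr (C : Col X) : C.gr.IsBipartite := by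
  have c : C.gr.Coloring Bool := ⟨C.side, by
    rintro x y ⟨i, rfl⟩
    simp [C.side_ι]⟩
  have := c.colorable
  simpa using this

theorem connected_gr (C : Col X) {a : X} (ha : C.reach a = Set.univ) : C.gr.Connected := by
  have h1 : ∀ w x, C.gr.Reachable x (C.act w x) := by
    intro w
    induction w with
    | nil => intro x; exact Reachable.refl _
    | cons i w ih =>
      intro x
      exact Reachable.trans (Adj.reachable ⟨i, rfl⟩) (ih (C.ι i x))
  have h2 : ∀ x, C.gr.Reachable a x := by
    intro x
    have : x ∈ C.reach a := by rw [ha]; trivial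
    obtain ⟨w, rfl⟩ := this
    exact h1 w a
  have : Nonempty X := ⟨a⟩
  exact ⟨fun x y => (h2 x).symm.trans (h2 y)⟩

end Col

theorem not_acyclic {V : Type*} [Finite V] (G : SimpleGraph V) (hc : G.Connected)
    (h3 : ∀ v, (G.neighborSet v).ncard = 3) : ¬ G.IsAcyclic := by
  classical
  intro hA
  have := Fintype.ofFinite V
  have hT : G.IsTree := ⟨hc, hA⟩
  have h1 := hT.card_edgeFinset
  have h2 := G.sum_degrees_eq_twice_card_edges
  have h4 : ∀ v, G.degree v = 3 := by
    intro v
    rw [← h3 v, Set.ncard_eq_toFinset_card']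
    rfl
  simp only [h4, Finset.sum_const, smul_eq_mul, Finset.card_univ] at h2
  omega

/-- a coloured graph of girth `≥ g` on `2m` vertices yields a connected cubic bipartite simple graph -/
theorem Good.graph {g m : ℕ} (h : Good g (2 * m)) (h3 : 3 ≤ g) (hm : 0 < m) :
    ∃ G : SimpleGraph (Fin (2 * m)), G.Connected ∧ (∀ v, (G.neighborSet v).ncard = 3) ∧
      G.IsBipartite ∧ g ≤ G.girth := by
  obtain ⟨X, _, C, hc, hg⟩ := h
  have hne : Nonempty X := by
    by_contra hcon
    rw [not_nonempty_iff] at hcon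
    rw [Nat.card_of_isEmpty] at hc
    omega
  obtain ⟨a, ha⟩ : ∃ a, C.side a = false := by
    obtain ⟨x⟩ := hne
    cases hs : C.side x
    · exact ⟨x, hs⟩
    · exact ⟨C.ι 0 x, by rw [C.side_ι, hs]; rfl⟩
  obtain ⟨C', h1, _, h2⟩ := C.exists_conn hg a ha
  have e : X ≃ Fin (2 * m) := Finite.equivFinOfCardEq hc
  have hg' := h1.map e
  have hconn : (C'.map e).reach (e a) = Set.univ := by
    rw [Set.eq_univ_iff_forall]
    intro y
    have : e.symm y ∈ C'.reach a := by rw [h2]; trivial
    obtain ⟨w, hw⟩ := this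
    refine ⟨w, ?_⟩
    rw [Col.map_act, Equiv.symm_apply_apply, hw, Equiv.apply_symm_apply]
  have hC := (C'.map e).connected_gr hconn
  have h4 := (C'.map e).cubic_gr hg' h3
  refine ⟨(C'.map e).gr, hC, h4, (C'.map e).colorable_gr, ?_⟩
  have h5 := (C'.map e).egirth_gr hg'
  have h6 : (C'.map e).gr.egirth ≠ ⊤ := by
    intro h
    rw [egirth_eq_top] at h
    exact not_acyclic _ hC h4 h
  have h7 := ENat.toNat_le_toNat h5 h6
  simpa [girth] using h7

end H25G
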