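import Pool.Agent.H25G.Large
import Pool.Agent.H25G.Graph

/-! the final bound: for every `m ≥ 8` there is a connected cubic bipartite graph on `2m` vertices whose
girth is at least `(4/3) x - 34 log₂ x - 160`, where `x = log₂ (2m)` -/

namespace H25G

/-- the cubic bipartite graph with vertices `(x, false)`, `(x, true)`, and edges from `(x, false)` to
`(x, true)`, `(x + 1, true)`, `(x + 2, true)` -/
def circ (m : ℕ) : Col (ZMod m × Bool) where
  ι i z := if z.2 then (z.1 - (i.val : ZMod m), false) else (z.1 + (i.val : ZMod m), true)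
  side z := z.2
  invol i z := by
    rcases z with ⟨x, b⟩
    cases b <;> simp
  side_ι i z := by
    rcases z with ⟨x, b⟩
    cases b <;> simp

theorem cast_ne {m : ℕ} (hm : 3 ≤ m) {i j : Fin 3} (h : i ≠ j) : ((i.val : ℕ) : ZMod m) ≠ (j.val : ℕ) := by
  intro h'
  rw [ZMod.natCast_eq_natCast_iff'] at h'
  rw [Nat.mod_eq_of_lt (by omega), Nat.mod_eq_of_lt (by omega)] at h'
  exact h (Fin.ext h')

theorem circ_girth {m : ℕ} (hm : 3 ≤ m) : (circ m).Girth 4 := by
  intro w hw hr hl x hx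
  have hside := Col.side_act (circ m) w x
  rw [hx] at hside
  have heven : w.length % 2 = 0 := by
    rcases Nat.mod_two_eq_zero_or_one w.length with h' | h'
    · exact h'
    · rw [if_pos h'] at hside
      cases hs : (circ m).side x <;> rw [hs] at hside <;> simp at hside
  have hpos : 0 < w.length := List.length_pos_iff.mpr hw
  have h2 : w.length = 2 := by omega
  obtain ⟨i, j, rfl⟩ := List.length_eq_two.mp h2
  have hij : i ≠ j := by
    intro h
    subst h
    exact not_red_cons_cons hr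
  have hc := cast_ne hm hij
  rcases x with ⟨x, b⟩
  cases b
  · simp [circ, Prod.ext_iff] at hx
    apply hc
    linear_combination hx
  · simp [circ, Prod.ext_iff] at hx
    apply hc
    linear_combination -hx

theorem good_four {m : ℕ} (hm : 3 ≤ m) : Good 4 (2 * m) := by
  have : NeZero m := ⟨by omega⟩
  refine ⟨ZMod m × Bool, inferInstance, circ m, ?_, circ_girth hm⟩
  rw [Nat.card_prod, Nat.card_zmod]
  simp [mul_comm]

/-- the bound in integers -/
theorem exists_good {m L l : ℕ} (hm : 3 ≤ m) (hL : 2 ^ L ≤ 2 * m) (hl : L ≤ 2 ^ l) :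
    ∃ g, 4 ≤ g ∧ Good g (2 * m) ∧ 4 * L ≤ 3 * g + 64 * l + 238 ∨
      (L < 98 + 25 * l) ∧ Good 4 (2 * m) := by
  by_cases h : 98 + 25 * l ≤ L
  · set e := (L - 50 - 13 * l) / 3 with he
    have h1 : 3 * e + 50 + 13 * l ≤ L := by omega
    have h2 : 16 + 4 * l ≤ e := by omega
    have h3 : e ≤ 2 ^ l := by omega
    refine ⟨2 * (2 * e - 5 - 2 * l), Or.inl ⟨by omega, good_large h3 h2 (2 * m) (by omega)
      ((Nat.pow_le_pow_right (by norm_num) h1).trans hL), by omega⟩⟩
  · exact ⟨4, Or.inr ⟨by omega, good_four hm⟩⟩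

/-- the lower bound for the girth -/
noncomputable def bd (x : ℝ) : ℝ := 4 / 3 * x - 34 * Real.logb 2 x - 160

theorem exists_good' {m : ℕ} (hm : 8 ≤ m) : ∃ g, 4 ≤ g ∧ Good g (2 * m) ∧
    bd (Real.logb 2 (2 * m)) ≤ (g : ℝ) := by
  set L := Nat.log 2 (2 * m) with hLd
  set l := Nat.clog 2 L with hld
  have hL4 : 4 ≤ L := by
    rw [hLd]
    apply (Nat.le_log_iff_pow_le (by norm_num) (by omega)).mpr
    omega
  have hL : 2 ^ L ≤ 2 * m := Nat.pow_log_le_self 2 (by omega)
  have hL' : 2 * m < 2 ^ (L + 1) := Nat.lt_pow_succ_log_self (by norm_num) _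
  have hl : L ≤ 2 ^ l := Nat.le_pow_clog (by norm_num) _
  have hl' : 2 ^ (l - 1) < L := Nat.pow_pred_clog_lt_self (by norm_num) (by omega)
  have hl1 : 1 ≤ l := by
    rcases Nat.eq_zero_or_pos l with h | h
    · rw [h] at hl
      omega
    · exact h
  -- real versions
  set x := Real.logb 2 (2 * m) with hx
  have hmpos : (0 : ℝ) < 2 * m := by
    have : (0 : ℝ) < m := by exact_mod_cast (by omega : 0 < m)
    linarith
  have hLx : (L : ℝ) ≤ x := by
    rw [hx, Real.le_logb_iff_rpow_le (by norm_num) hmpos, Real.rpow_natCast]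
    exact_mod_cast hL
  have hxL : x < L + 1 := by
    rw [hx, Real.logb_lt_iff_lt_rpow (by norm_num) hmpos]
    have : ((2 : ℝ) ^ ((L : ℝ) + 1)) = 2 ^ (L + 1) := by
      rw [← Real.rpow_natCast]
      push_cast
      rfl
    rw [this]
    exact_mod_cast hL'
  have hLpos : (0 : ℝ) < L := by exact_mod_cast (by omega : 0 < L)
  have hlx : (l : ℝ) ≤ Real.logb 2 x + 1 := by
    have h1 : ((l - 1 : ℕ) : ℝ) ≤ Real.logb 2 L := by
      rw [Real.le_logb_iff_rpow_le (by norm_num) hLpos, Real.rpow_natCast]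
      exact_mod_cast hl'.le
    have h2 : Real.logb 2 L ≤ Real.logb 2 x := Real.logb_le_logb_of_le (by norm_num) hLpos hLx
    rw [Nat.cast_sub hl1] at h1
    push_cast at h1
    linarith
  have hlx0 : 0 ≤ Real.logb 2 x := Real.logb_nonneg (by norm_num) (by
    have : (4 : ℝ) ≤ L := by exact_mod_cast hL4
    linarith)
  obtain ⟨g, h | h⟩ := exists_good (by omega) hL hl
  · obtain ⟨h1, h2, h3⟩ := h
    refine ⟨g, h1, h2, ?_⟩
    have h4 : (4 : ℝ) * L ≤ 3 * g + 64 * l + 238 := by exact_mod_cast h3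
    unfold bd
    linarith
  · obtain ⟨h1, h2⟩ := h
    refine ⟨4, le_rfl, h2, ?_⟩
    have h4 : (L : ℝ) + 1 ≤ 98 + 25 * l := by exact_mod_cast h1
    unfold bd
    push_cast
    linarith

theorem exists_graph {m : ℕ} (hm : 8 ≤ m) : ∃ G : SimpleGraph (Fin (2 * m)), G.Connected ∧
    (∀ v, (G.neighborSet v).ncard = 3) ∧ G.IsBipartite ∧ bd (Real.logb 2 (2 * m)) ≤ (G.girth : ℝ) := by
  obtain ⟨g, h1, h2, h3⟩ := exists_good' hm
  obtain ⟨G, hc, hn, hb, hg⟩ := h2.graph (by omega) (by omega)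
  exact ⟨G, hc, hn, hb, h3.trans (by exact_mod_cast hg)⟩

end H25G
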