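import Pool.Agent.H25G.Semi
import Pool.Agent.H25G.Cay
import Pool.Agent.H25G.Cube

/-! every even number `≥ 2^(3e + 50 + 13λ)` (where `e ≤ 2^λ`) is the order of a graph of girth at least
`4e - 10 - 4λ` -/

namespace H25G

open Finset

/-- Chebyshev's lower bound at powers of two -/
theorem cheb (e : ℕ) : 2 ^ e ≤ e * Nat.primeCounting (2 ^ e) + (e + 1) := by
  have h1 := Chebyshev.psi_ge (2 ^ e)
  have h2 := Chebyshev.psi_le_primeCounting_mul_log (2 ^ e)
  have h3 : Real.log (((2 ^ e : ℕ) : ℝ)) = e * Real.log 2 := by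
    push_cast
    rw [Real.log_pow]
  have h4 : Real.log (((2 ^ e : ℕ) : ℝ) + 1) ≤ (e + 1) * Real.log 2 := by
    have h5 : ((2 ^ e : ℕ) : ℝ) + 1 ≤ 2 ^ (e + 1) := by
      push_cast
      have : (1 : ℝ) ≤ 2 ^ e := one_le_pow₀ (by norm_num)
      rw [pow_succ]
      linarith
    calc Real.log (((2 ^ e : ℕ) : ℝ) + 1) ≤ Real.log (2 ^ (e + 1)) := by
          apply Real.log_le_log (by positivity) h5
      _ = (e + 1) * Real.log 2 := by rw [Real.log_pow]; push_cast; ring
  have hlog : 0 < Real.log 2 := Real.log_pos (by norm_num)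
  rw [h3] at h2
  have h6 : (((2 ^ e : ℕ) : ℝ)) * Real.log 2 ≤
      ((e * Nat.primeCounting (2 ^ e) + (e + 1) : ℕ) : ℝ) * Real.log 2 := by
    push_cast
    push_cast at h1 h2 h4
    nlinarith
  have h7 := le_of_mul_le_mul_right h6 hlog
  exact_mod_cast h7

/-- the primes in `(T, 2^e)` -/
def PP (e T : ℕ) : Finset ℕ := (range (2 ^ e)).filter (fun p => p.Prime ∧ T < p)

theorem card_PP {e l : ℕ} (he : e ≤ 2 ^ l) (hel : 2 + l ≤ e) (he5 : 5 ≤ e) :
    2 ^ e ≤ 2 ^ (l + 2) * (PP e (2 ^ (e - 2 - l))).card := by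
  set T := 2 ^ (e - 2 - l) with hT
  have h1 := cheb e
  have h2 : Nat.primeCounting (2 ^ e) ≤ (PP e T).card + T := by
    unfold Nat.primeCounting Nat.primeCounting'
    rw [Nat.count_eq_card_filter_range]
    have h3 : (range (2 ^ e + 1)).filter Nat.Prime ⊆ PP e T ∪ (range (T + 1)).erase 0 := by
      intro p hp
      rw [mem_filter, mem_range] at hp
      rw [mem_union]
      by_cases h : T < p
      · left
        unfold PP
        rw [mem_filter, mem_range]
        refine ⟨?_, hp.2, h⟩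
        rcases Nat.lt_or_ge p (2 ^ e) with h4 | h4
        · exact h4
        · exfalso
          have h5 : p = 2 ^ e := by omega
          have h6 := hp.2
          rw [h5] at h6
          exact (Nat.Prime.not_prime_pow (by omega)) h6
      · right
        rw [mem_erase, mem_range]
        exact ⟨hp.2.ne_zero, by omega⟩
    refine (card_le_card h3).trans ((card_union_le _ _).trans ?_)
    rw [card_erase_of_mem (by simp), card_range]
    simp
  have h3 : 2 ^ (l + 2) * T = 2 ^ e := by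
    rw [hT, ← pow_add]
    congr 1
    omega
  have h4 : 4 * e + 4 ≤ 2 ^ e := by
    have : ∀ n, 5 ≤ n → 4 * n + 4 ≤ 2 ^ n := by
      intro n hn
      induction n, hn using Nat.le_induction with
      | base => norm_num
      | succ n _ ih => rw [pow_succ]; omega
    exact this e he5
  have h5 : 4 * (e * Nat.primeCounting (2 ^ e)) ≤ 2 ^ (l + 2) * Nat.primeCounting (2 ^ e) := by
    have : 2 ^ (l + 2) = 4 * 2 ^ l := by rw [pow_add]; ring
    rw [this, mul_assoc]
    exact Nat.mul_le_mul_left 4 (Nat.mul_le_mul_right _ he)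
  have h6 : 2 ^ (l + 2) * Nat.primeCounting (2 ^ e) ≤ 2 ^ (l + 2) * (PP e T).card + 2 ^ e := by
    calc 2 ^ (l + 2) * Nat.primeCounting (2 ^ e) ≤ 2 ^ (l + 2) * ((PP e T).card + T) :=
          Nat.mul_le_mul_left _ h2
      _ = 2 ^ (l + 2) * (PP e T).card + 2 ^ e := by rw [mul_add, h3]
  omega

theorem good_PP {e l : ℕ} (hel : 4 + l ≤ e) (p : ℕ) (hp : p ∈ PP e (2 ^ (e - 2 - l))) :
    Good (2 * (2 * e - 5 - 2 * l)) (fq p) := by
  unfold PP at hp
  rw [mem_filter] at hp
  obtain ⟨_, h1, h2⟩ := hp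
  have h3 : 4 ≤ 2 ^ (e - 2 - l) := by
    calc 4 = 2 ^ 2 := by norm_num
      _ ≤ 2 ^ (e - 2 - l) := Nat.pow_le_pow_right (by norm_num) (by omega)
  apply good_prime h1 (by omega)
  have h4 : 2 ^ (2 * e - 5 - 2 * l + 1) = (2 ^ (e - 2 - l)) ^ 2 := by
    rw [← pow_mul]
    congr 1
    omega
  rw [h4]
  exact Nat.pow_lt_pow_left h2 (by norm_num)

theorem good_large {e l : ℕ} (he : e ≤ 2 ^ l) (hel : 16 + 4 * l ≤ e) (M : ℕ) (hM2 : M % 2 = 0)
    (hM : 2 ^ (3 * e + 50 + 13 * l) ≤ M) : Good (2 * (2 * e - 5 - 2 * l)) M := by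
  set g := 2 * (2 * e - 5 - 2 * l) with hg
  set P := PP e (2 ^ (e - 2 - l)) with hP
  have hcard := card_PP he (by omega : 2 + l ≤ e) (by omega)
  rw [← hP] at hcard
  have hPlt : ∀ x ∈ P, x < 2 ^ e := fun x hx => mem_range.mp (mem_filter.mp hx).1
  have hPg : ∀ x ∈ P, Good g (fq x) := fun x hx => good_PP (by omega) x hx
  set J := e - 16 - 4 * l with hJ
  -- cubes at all scales
  have hcube : ∀ i, ∃ u d, i ≤ J → Good g u ∧ Good g (u + d) ∧ 2 ^ (3 * i + 3) ≤ d ∧
      d ≤ 2 ^ (3 * i + 32 + 7 * l) ∧ u ≤ 2 ^ (3 * e + 3) ∧ u % 2 = 0 ∧ d % 2 = 0 := by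
    intro i
    by_cases hi : i ≤ J
    · obtain ⟨x, a, b, c, x1, x2, x3, x4, x5, x6, x7, x8, ha, hb, hc, habc⟩ :=
        exists_cube P (K := 2 ^ (l + 2)) (s := 2 ^ i) hPlt (by positivity) hcard (by
          rw [← pow_mul, ← pow_add, ← pow_add]
          exact Nat.pow_le_pow_right (by norm_num) (by omega)) (by positivity)
      refine ⟨fq x + fq (x + a + b) + fq (x + a + c) + fq (x + b + c), 12 * (a * b * c), fun _ => ?_⟩
      refine ⟨?_, ?_, ?_, ?_, ?_, ?_, ?_⟩
      · exact (((hPg _ x1).add (hPg _ x5)).add (hPg _ x6)).add (hPg _ x7)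
      · rw [← fq_diff]
        exact (((hPg _ x2).add (hPg _ x3)).add (hPg _ x4)).add (hPg _ x8)
      · have h1 : 2 ^ i * 2 ^ i * 2 ^ i ≤ a * b * c := Nat.mul_le_mul (Nat.mul_le_mul ha hb) hc
        have h2 : 2 ^ (3 * i + 3) = 8 * (2 ^ i * 2 ^ i * 2 ^ i) := by
          rw [pow_add, pow_mul']
          ring
        omega
      · have h1 : 2 ^ 14 * (2 ^ (l + 2)) ^ 7 * (2 ^ i) ^ 3 = 2 ^ (3 * i + 28 + 7 * l) := by
          rw [← pow_mul, ← pow_mul, ← pow_add, ← pow_add]
          congr 1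
          ring
        rw [h1] at habc
        have h2 : 2 ^ (3 * i + 32 + 7 * l) = 16 * 2 ^ (3 * i + 28 + 7 * l) := by
          have : 3 * i + 32 + 7 * l = 4 + (3 * i + 28 + 7 * l) := by ring
          rw [this, pow_add]
          norm_num
        omega
      · have h1 : ∀ y ∈ P, fq y ≤ 2 * (2 ^ e) ^ 3 := fun y hy => fq_le (hPlt y hy).le
        have h2 : 2 ^ (3 * e + 3) = 8 * (2 ^ e) ^ 3 := by
          rw [pow_add, pow_mul']
          ring
        have := h1 _ x1
        have := h1 _ x5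
        have := h1 _ x6
        have := h1 _ x7
        omega
      · have := fq_even x
        have := fq_even (x + a + b)
        have := fq_even (x + a + c)
        have := fq_even (x + b + c)
        omega
      · omega
    · exact ⟨0, 0, fun h => absurd h hi⟩
  choose u d hud using hcube
  -- the coarse step
  have hne : P.Nonempty := by
    rw [← card_pos]
    by_contra hcon
    have h0 : P.card = 0 := by omega
    rw [h0, mul_zero] at hcard
    have : 0 < 2 ^ e := by positivity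
    omega
  obtain ⟨p, hp⟩ := hne
  have hf := hPg p hp
  have hfle : fq p ≤ 2 ^ (3 * e + 1) := by
    have h1 := fq_le (hPlt p hp).le
    have h2 : 2 ^ (3 * e + 1) = 2 * (2 ^ e) ^ 3 := by
      rw [pow_add, pow_mul']
      ring
    omega
  have hf0 : 0 < fq p := by
    have hpp := (mem_filter.mp hp).2.1
    unfold fq
    have h1 := hpp.two_le
    have h2 : 2 ^ 2 ≤ p ^ 2 := Nat.pow_le_pow_left h1 2
    have h3 : 0 < p ^ 2 - 1 := by omega
    positivity
  have hd0 : d 0 ≤ 2 ^ (32 + 7 * l) := by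
    have := (hud 0 (Nat.zero_le _)).2.2.2.1
    simpa using this
  apply semi u d (fq p) (2 ^ (46 + 12 * l)) J (fun i hi => (hud i hi).1)
    (fun i hi => (hud i hi).2.1) hf hf0
    (fun i hi => lt_of_lt_of_le (by positivity) (hud i hi).2.2.1) ?_ ?_
    (fun i hi => (hud i hi).2.2.2.2.2.1) (fun i hi => (hud i hi).2.2.2.2.2.2) (fq_even p) M hM2 ?_
  · intro i hi
    have h1 := (hud (i + 1) hi).2.2.2.1
    have h2 := (hud i hi.le).2.2.1
    calc d (i + 1) ≤ 2 ^ (3 * (i + 1) + 32 + 7 * l) := h1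
      _ ≤ 2 ^ (46 + 12 * l + (3 * i + 3)) := Nat.pow_le_pow_right (by norm_num) (by omega)
      _ = 2 ^ (46 + 12 * l) * 2 ^ (3 * i + 3) := pow_add _ _ _
      _ ≤ 2 ^ (46 + 12 * l) * d i := Nat.mul_le_mul_left _ h2
  · have h2 := (hud J le_rfl).2.2.1
    calc fq p ≤ 2 ^ (3 * e + 1) := hfle
      _ ≤ 2 ^ (46 + 12 * l + (3 * J + 3)) := Nat.pow_le_pow_right (by norm_num) (by omega)
      _ = 2 ^ (46 + 12 * l) * 2 ^ (3 * J + 3) := pow_add _ _ _
      _ ≤ 2 ^ (46 + 12 * l) * d J := Nat.mul_le_mul_left _ h2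
  · have h1 : ∑ i ∈ range (J + 1), 2 ^ (46 + 12 * l) * u i ≤ 2 ^ (3 * e + 49 + 13 * l) := by
      have h2 : ∀ i ∈ range (J + 1), 2 ^ (46 + 12 * l) * u i ≤ 2 ^ (3 * e + 49 + 12 * l) := by
        intro i hi
        rw [mem_range] at hi
        have h3 := (hud i (by omega)).2.2.2.2.1
        calc 2 ^ (46 + 12 * l) * u i ≤ 2 ^ (46 + 12 * l) * 2 ^ (3 * e + 3) :=
              Nat.mul_le_mul_left _ h3
          _ = 2 ^ (3 * e + 49 + 12 * l) := by
            rw [← pow_add]
            congr 1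
            ring
      have h3 := sum_le_card_nsmul _ _ _ h2
      rw [card_range, smul_eq_mul] at h3
      calc ∑ i ∈ range (J + 1), 2 ^ (46 + 12 * l) * u i ≤ (J + 1) * 2 ^ (3 * e + 49 + 12 * l) := h3
        _ ≤ 2 ^ l * 2 ^ (3 * e + 49 + 12 * l) := Nat.mul_le_mul_right _ (by omega)
        _ = 2 ^ (3 * e + 49 + 13 * l) := by
          rw [← pow_add]
          congr 1
          ring
    have h2 : (3 * d 0 + 1) * fq p ≤ 2 ^ (3 * e + 49 + 13 * l) := by
      have h3 : 3 * d 0 + 1 ≤ 2 ^ (34 + 7 * l) := by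
        have h4 : 2 ^ (34 + 7 * l) = 4 * 2 ^ (32 + 7 * l) := by
          have : 34 + 7 * l = 2 + (32 + 7 * l) := by ring
          rw [this, pow_add]
          norm_num
        have : 0 < 2 ^ (32 + 7 * l) := by positivity
        omega
      calc (3 * d 0 + 1) * fq p ≤ 2 ^ (34 + 7 * l) * 2 ^ (3 * e + 1) := Nat.mul_le_mul h3 hfle
        _ = 2 ^ (3 * e + 35 + 7 * l) := by
          rw [← pow_add]
          congr 1
          ring
        _ ≤ 2 ^ (3 * e + 49 + 13 * l) := Nat.pow_le_pow_right (by norm_num) (by omega)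
    have h3 : 2 ^ (3 * e + 50 + 13 * l) = 2 * 2 ^ (3 * e + 49 + 13 * l) := by
      have : 3 * e + 50 + 13 * l = 1 + (3 * e + 49 + 13 * l) := by ring
      rw [this, pow_add]
      norm_num
    omega

end H25G
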