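import Mathlib

/-! the Eisenstein quaternion order `O = ℤ[ω] + ℤ[ω] j`, three elements of norm `2`, and the reduction
modulo a prime -/

namespace H25G

open Quaternion

/-- the Eisenstein quaternion order: `i = ω` is a cube root of unity, `j² = -1`, `j ω = ω² j` -/
abbrev O : Type := QuaternionAlgebra ℤ (-1) (-1) (-1)

namespace O

/-- the norm form -/
def N (x : O) : ℤ := x.re ^ 2 - x.re * x.imI + x.imI ^ 2 + (x.imJ ^ 2 - x.imJ * x.imK + x.imK ^ 2)

theorem N_mul (x y : O) : N (x * y) = N x * N y := by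
  simp only [N, QuaternionAlgebra.re_mul, QuaternionAlgebra.imI_mul, QuaternionAlgebra.imJ_mul,
    QuaternionAlgebra.imK_mul]
  ring

/-- the elements `j, ω j, ω² j` -/
def e (i : Fin 3) : O := ![⟨0, 0, 1, 0⟩, ⟨0, 0, 0, 1⟩, ⟨0, 0, -1, -1⟩] i

theorem e_sq (i : Fin 3) : e i * e i = -1 := by
  fin_cases i <;> ext <;> simp [e]

theorem e_add (i j : Fin 3) (h : i ≠ j) : ∃ k, e i + e j = -e k := by
  have h01 : e 0 + e 1 = -e 2 := by ext <;> simp [e]
  have h02 : e 0 + e 2 = -e 1 := by ext <;> simp [e]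
  have h12 : e 1 + e 2 = -e 0 := by ext <;> simp [e]
  fin_cases i <;> fin_cases j
  · exact absurd rfl h
  · exact ⟨2, h01⟩
  · exact ⟨1, h02⟩
  · exact ⟨2, by rw [add_comm]; exact h01⟩
  · exact absurd rfl h
  · exact ⟨0, h12⟩
  · exact ⟨1, by rw [add_comm]; exact h02⟩
  · exact ⟨0, by rw [add_comm]; exact h12⟩
  · exact absurd rfl h

/-- the elements of norm two: `1 + e i` (for `b = false`) and the conjugates `1 - e i` (for `b = true`) -/
def fac (b : Bool) (i : Fin 3) : O := if b then 1 - e i else 1 + e i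

theorem N_fac (b : Bool) (i : Fin 3) : N (fac b i) = 2 := by
  cases b <;> fin_cases i <;> simp [fac, N, e]

theorem fac_mul_fac (b : Bool) (i : Fin 3) : fac (!b) i * fac b i = 2 := by
  have h := e_sq i
  cases b
  · have : fac (!false) i * fac false i = 1 - e i * e i := by
      simp only [fac, Bool.not_false, if_true, Bool.false_eq_true, if_false]
      noncomm_ring
    rw [this, h]
    norm_num
  · have : fac (!true) i * fac true i = 1 - e i * e i := by
      simp only [fac, Bool.not_true, if_true, Bool.false_eq_true, if_false]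
      noncomm_ring
    rw [this, h]
    norm_num

/-- divisible by two -/
def Ev (x : O) : Prop := ∃ y : O, x = 2 * y

theorem Ev.add {x y : O} (hx : Ev x) (hy : Ev y) : Ev (x + y) := by
  obtain ⟨a, rfl⟩ := hx
  obtain ⟨b, rfl⟩ := hy
  exact ⟨a + b, (mul_add _ _ _).symm⟩

theorem Ev.neg {x : O} (hx : Ev x) : Ev (-x) := by
  obtain ⟨a, rfl⟩ := hx
  exact ⟨-a, (mul_neg _ _).symm⟩

theorem Ev.mul_right {x : O} (hx : Ev x) (y : O) : Ev (x * y) := by
  obtain ⟨a, rfl⟩ := hx
  exact ⟨a * y, mul_assoc _ _ _⟩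

theorem ev_two_mul (x : O) : Ev (2 * x) := ⟨x, rfl⟩

theorem two_comm (x : O) : x * 2 = 2 * x := by noncomm_ring

theorem Ev.mul_left {x : O} (hx : Ev x) (y : O) : Ev (y * x) := by
  obtain ⟨a, rfl⟩ := hx
  exact ⟨y * a, by rw [← mul_assoc, two_comm, mul_assoc]⟩

theorem Ev.re {x : O} (hx : Ev x) : ∃ z : ℤ, x.re = 2 * z := by
  obtain ⟨a, rfl⟩ := hx
  refine ⟨a.re, ?_⟩
  have : (2 * a : O) = a + a := by noncomm_ring
  rw [this, QuaternionAlgebra.re_add]
  ring

theorem ev_fac (b : Bool) (i : Fin 3) (x : O) (h : Ev (x * fac b i)) : Ev (x * (1 + e i)) := by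
  cases b
  · simpa [fac] using h
  · have h1 : x * (1 + e i) = x * fac true i + 2 * (x * e i) := by
      simp only [fac, if_true]
      noncomm_ring
    rw [h1]
    exact h.add (ev_two_mul _)

theorem fac_fac_ev (b b' : Bool) (i : Fin 3) (x : O) : Ev (x * fac b i * fac b' i) := by
  rw [mul_assoc]
  apply Ev.mul_left
  by_cases h : b = !b'
  · subst h
    rw [fac_mul_fac]
    exact ⟨1, by norm_num⟩
  · have hb : b = b' := by cases b <;> cases b' <;> simp_all
    subst hb
    have h2 := e_sq i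
    cases b
    · refine ⟨e i, ?_⟩
      have : fac false i * fac false i = 1 + 2 * e i + e i * e i := by
        simp only [fac, Bool.false_eq_true, if_false]
        noncomm_ring
      rw [this, h2]
      noncomm_ring
    · refine ⟨-e i, ?_⟩
      have : fac true i * fac true i = 1 - 2 * e i + e i * e i := by
        simp only [fac, if_true]
        noncomm_ring
      rw [this, h2]
      noncomm_ring

theorem ev_of_two {x : O} {i j : Fin 3} (hij : i ≠ j) (hi : Ev (x * (1 + e i)))
    (hj : Ev (x * (1 + e j))) : Ev x := by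
  obtain ⟨k, hk⟩ := e_add i j hij
  have h1 : x * e k = 2 * x + -(x * (1 + e i) + x * (1 + e j)) := by
    have : x * (1 + e i) + x * (1 + e j) = 2 * x + x * (e i + e j) := by noncomm_ring
    rw [this, hk]
    noncomm_ring
  have h2 : Ev (x * e k) := by
    rw [h1]
    exact (ev_two_mul x).add (hi.add hj).neg
  have h3 := (h2.mul_right (e k)).neg
  rw [mul_assoc, e_sq, mul_neg, mul_one, neg_neg] at h3
  exact h3

/-- the quaternion of a word -/
def W : Bool → List (Fin 3) → O
  | _, [] => 1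
  | b, i :: w => W (!b) w * fac b i

theorem N_W (b : Bool) (w : List (Fin 3)) : N (W b w) = 2 ^ w.length := by
  induction w generalizing b with
  | nil => simp [W, N]
  | cons i w ih => rw [W, N_mul, ih, N_fac, List.length_cons, pow_succ]

/-- reduced words give quaternions that are not divisible by two -/
theorem W_not_ev (w : List (Fin 3)) : ∀ b, w.IsChain (· ≠ ·) →
    ¬ Ev (W b w) ∧ ∀ i w', w = i :: w' → ∀ b', Ev (W b w * fac b' i) := by
  induction w with
  | nil =>
    intro b _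
    refine ⟨?_, by simp⟩
    intro h
    obtain ⟨z, hz⟩ := h.re
    simp [W] at hz
    omega
  | cons i w ih =>
    intro b hr
    refine ⟨?_, ?_⟩
    · intro h
      rw [W] at h
      have h1 := ev_fac b i _ h
      cases w with
      | nil =>
        obtain ⟨z, hz⟩ := h1.re
        simp only [W, one_mul] at hz
        have : (1 + e i : O).re = 1 := by fin_cases i <;> simp [e]
        omega
      | cons j w' =>
        rw [List.isChain_cons_cons] at hr
        obtain ⟨h2, h3⟩ := ih (!b) hr.2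
        apply h2
        exact ev_of_two hr.1 h1 (ev_fac false j _ (h3 j w' rfl false))
    · intro i' w' h b'
      rw [List.cons.injEq] at h
      obtain ⟨rfl, _⟩ := h
      rw [W]
      exact fac_fac_ev b b' i _

theorem ev_two_pow {k : ℕ} (hk : 0 < k) : Ev ((2 : O) ^ k) := by
  obtain ⟨l, rfl⟩ : ∃ l, k = l + 1 := ⟨k - 1, by omega⟩
  exact ⟨2 ^ l, pow_succ' _ _⟩

theorem two_pow_eq (k : ℕ) : ((2 : O) ^ k) = ⟨2 ^ k, 0, 0, 0⟩ := by
  induction k with
  | zero => ext <;> simp
  | succ k ih =>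
    rw [pow_succ, ih, two_comm]
    have : ∀ x : O, 2 * x = x + x := fun x => by noncomm_ring
    rw [this]
    ext
    · simp; ring
    · simp
    · simp
    · simp

/-- the size argument: if `x ≡ 2^k` modulo `q`, `N x = 4^k`, `x ≠ 2^k` then `q² ≤ 2^(k+2)` -/
theorem size {q : ℕ} (hq : q.Prime) (hq2 : q ≠ 2) {k : ℕ} {x : O} (hN : N x = 4 ^ k)
    (hx : x ≠ 2 ^ k) (y : O) (hy0 : x.re = 2 ^ k + q * y.re) (hy1 : x.imI = q * y.imI)
    (hy2 : x.imJ = q * y.imJ) (hy3 : x.imK = q * y.imK) : q ^ 2 ≤ 2 ^ (k + 2) := by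
  set t : ℤ := 2 * y.re - y.imI with ht
  have hqpos : (0 : ℤ) < q := by exact_mod_cast hq.pos
  have h4 : (4 : ℤ) ^ k = 2 ^ k * 2 ^ k := by rw [← mul_pow]; norm_num
  -- `2^k t + q N y = 0`
  have h1 : 2 ^ k * t + q * N y = 0 := by
    have h2 : (q : ℤ) * (2 ^ k * t + q * N y) = 0 := by
      have : N x = 2 ^ k * 2 ^ k + q * (2 ^ k * t + q * N y) := by
        unfold N
        rw [hy0, hy1, hy2, hy3, ht]
        ring
      rw [hN, h4] at this
      linarith
    rcases mul_eq_zero.mp h2 with h | h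
    · omega
    · exact h
  -- `N y > 0`
  have hNy4 : 4 * N y = t ^ 2 + 3 * y.imI ^ 2 + ((2 * y.imJ - y.imK) ^ 2 + 3 * y.imK ^ 2) := by
    unfold N
    rw [ht]
    ring
  have hNy : 0 < N y := by
    by_contra hcon
    push Not at hcon
    have e1 : t ^ 2 = 0 := by nlinarith [sq_nonneg t, sq_nonneg y.imI, sq_nonneg (2 * y.imJ - y.imK), sq_nonneg y.imK]
    have e2 : y.imI ^ 2 = 0 := by nlinarith [sq_nonneg t, sq_nonneg y.imI, sq_nonneg (2 * y.imJ - y.imK), sq_nonneg y.imK]
    have e3 : (2 * y.imJ - y.imK) ^ 2 = 0 := by nlinarith [sq_nonneg t, sq_nonneg y.imI, sq_nonneg (2 * y.imJ - y.imK), sq_nonneg y.imK]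
    have e4 : y.imK ^ 2 = 0 := by nlinarith [sq_nonneg t, sq_nonneg y.imI, sq_nonneg (2 * y.imJ - y.imK), sq_nonneg y.imK]
    have f1 := pow_eq_zero_iff (two_ne_zero) |>.mp e1
    have f2 := pow_eq_zero_iff (two_ne_zero) |>.mp e2
    have f3 := pow_eq_zero_iff (two_ne_zero) |>.mp e3
    have f4 := pow_eq_zero_iff (two_ne_zero) |>.mp e4
    apply hx
    rw [two_pow_eq]
    ext
    · simp only [hy0]
      have : y.re = 0 := by omega
      rw [this]; simp
    · simp only [hy1, f2]; simp
    · simp only [hy2]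
      have : y.imJ = 0 := by omega
      rw [this]; simp
    · simp only [hy3, f4]; simp
  -- `q ∣ t`
  have hdvd : (q : ℤ) ∣ t := by
    have h2 : (q : ℤ) ∣ 2 ^ k * t := ⟨-N y, by linarith⟩
    have hco : IsCoprime (q : ℤ) (2 ^ k) := by
      apply IsCoprime.pow_right
      have h3 : Nat.Coprime q 2 := (Nat.coprime_primes hq Nat.prime_two).mpr hq2
      exact_mod_cast Nat.isCoprime_iff_coprime.mpr h3
    exact hco.dvd_of_dvd_mul_left h2
  obtain ⟨s, hs⟩ := hdvd
  have h2k : (0 : ℤ) < 2 ^ k := by positivity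
  have h5 : N y = -(2 ^ k * s) := by
    have : (q : ℤ) * (2 ^ k * s + N y) = 0 := by
      calc (q : ℤ) * (2 ^ k * s + N y) = 2 ^ k * (q * s) + q * N y := by ring
        _ = 0 := by rw [← hs]; exact h1
    rcases mul_eq_zero.mp this with h | h
    · omega
    · linarith
  have hs0 : s < 0 := by
    by_contra hcon
    push Not at hcon
    have : 0 ≤ 2 ^ k * s := by positivity
    linarith
  have h6 : (q : ℤ) ^ 2 * (-s) ≤ 2 ^ (k + 2) := by
    have h7 : t ^ 2 ≤ 4 * N y := by
      rw [hNy4]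
      nlinarith [sq_nonneg y.imI, sq_nonneg (2 * y.imJ - y.imK), sq_nonneg y.imK]
    rw [hs, h5] at h7
    have h8 : (-s) * ((q : ℤ) ^ 2 * (-s)) ≤ (-s) * 2 ^ (k + 2) := by
      calc (-s) * ((q : ℤ) ^ 2 * (-s)) = (q * s) ^ 2 := by ring
        _ ≤ 4 * -(2 ^ k * s) := h7
        _ = (-s) * 2 ^ (k + 2) := by ring
    exact le_of_mul_le_mul_left h8 (by linarith)
  have h9 : (q : ℤ) ^ 2 ≤ 2 ^ (k + 2) := by
    have : (q : ℤ) ^ 2 * 1 ≤ (q : ℤ) ^ 2 * (-s) := by
      apply mul_le_mul_of_nonneg_left _ (by positivity)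
      omega
    linarith
  exact_mod_cast h9

section rho

variable {F : Type*} [Field F] (a c : F)

/-- a splitting of the order over a field with `a² - a c + c² = -1` -/
def rho (x : O) : Matrix (Fin 2) (Fin 2) F :=
  !![(x.re : F) + a * x.imJ - c * x.imK, -(x.imI : F) + (c - a) * x.imJ + a * x.imK;
    (x.imI : F) + c * x.imJ + (a - c) * x.imK, (x.re : F) - x.imI - a * x.imJ + c * x.imK]

variable {a c}

theorem rho_mul (h : a ^ 2 - a * c + c ^ 2 + 1 = 0) (x y : O) :
    rho a c (x * y) = rho a c x * rho a c y := by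
  ext i j
  fin_cases i <;> fin_cases j
  · simp [rho, Matrix.mul_apply, Fin.sum_univ_two]
    linear_combination (-((x.imJ : F) * y.imJ + x.imK * y.imK - x.imJ * y.imK)) * h
  · simp [rho, Matrix.mul_apply, Fin.sum_univ_two]
    linear_combination (-(-(x.imK : F) * y.imJ + x.imJ * y.imK)) * h
  · simp [rho, Matrix.mul_apply, Fin.sum_univ_two]
    linear_combination (-((x.imK : F) * y.imJ - x.imJ * y.imK)) * h
  · simp [rho, Matrix.mul_apply, Fin.sum_univ_two]
    linear_combination (-((x.imJ : F) * y.imJ + x.imK * y.imK - x.imK * y.imJ)) * h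

theorem rho_one : rho a c 1 = 1 := by
  ext i j
  fin_cases i <;> fin_cases j <;> simp [rho]

theorem det_rho (h : a ^ 2 - a * c + c ^ 2 + 1 = 0) (x : O) : (rho a c x).det = (N x : F) := by
  rw [Matrix.det_fin_two]
  simp [rho, N]
  linear_combination (-((x.imJ : F) ^ 2 - x.imJ * x.imK + x.imK ^ 2)) * h

end rho

end O

end H25G
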