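import Pool.Agent.H25G.Ops

/-! greedy expansions, and the semigroup lemma -/

namespace H25G

open Finset

/-- greedy expansion with slowly growing base numbers `d i` -/
theorem greedy (d : ℕ → ℕ) (B : ℕ) (J : ℕ) (hd : ∀ i ≤ J, 0 < d i)
    (hB : ∀ i < J, d (i + 1) ≤ B * d i) (Y : ℕ) (hY : Y < B * d J) :
    ∃ (t : ℕ → ℕ) (r : ℕ), (∀ i ≤ J, t i ≤ B) ∧ r < d 0 ∧ Y = ∑ i ∈ range (J + 1), t i * d i + r := by
  induction J generalizing Y with
  | zero =>
    refine ⟨fun _ => Y / d 0, Y % d 0, ?_, Nat.mod_lt _ (hd 0 le_rfl), ?_⟩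
    · intro i _
      exact (Nat.div_lt_of_lt_mul (by rw [mul_comm]; exact hY)).le
    · simp only [zero_add, range_one, sum_singleton]
      exact (Nat.div_add_mod' Y (d 0)).symm
  | succ J ih =>
    have h1 : Y % d (J + 1) < B * d J := lt_of_lt_of_le (Nat.mod_lt _ (hd _ le_rfl))
      (hB J (Nat.lt_succ_self J))
    obtain ⟨t, r, h2, h3, h4⟩ := ih (fun i hi => hd i (by omega)) (fun i hi => hB i (by omega)) _ h1
    refine ⟨fun i => if i = J + 1 then Y / d (J + 1) else t i, r, ?_, h3, ?_⟩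
    · intro i hi
      by_cases h : i = J + 1
      · simp only [h, if_true]
        exact (Nat.div_lt_of_lt_mul (by rw [mul_comm]; exact hY)).le
      · simp only [h, if_false]
        exact h2 i (by omega)
    · rw [sum_range_succ]
      have h5 : ∑ i ∈ range (J + 1), (if i = J + 1 then Y / d (J + 1) else t i) * d i =
          ∑ i ∈ range (J + 1), t i * d i := by
        apply sum_congr rfl
        intro i hi
        rw [mem_range] at hi
        rw [if_neg (by omega)]
      rw [h5]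
      show Y = ∑ i ∈ range (J + 1), t i * d i +
        (if J + 1 = J + 1 then Y / d (J + 1) else t (J + 1)) * d (J + 1) + r
      rw [if_pos rfl]
      have h6 := Nat.div_add_mod' Y (d (J + 1))
      omega

/-- every large even number is the order of a good graph -/
theorem semi {g : ℕ} (u d : ℕ → ℕ) (f0 B J : ℕ) (hu : ∀ i ≤ J, Good g (u i))
    (hv : ∀ i ≤ J, Good g (u i + d i)) (hf : Good g f0) (hf0 : 0 < f0) (hd : ∀ i ≤ J, 0 < d i)
    (hB : ∀ i < J, d (i + 1) ≤ B * d i) (hBf : f0 ≤ B * d J)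
    (hu2 : ∀ i ≤ J, u i % 2 = 0) (hd2 : ∀ i ≤ J, d i % 2 = 0) (hf2 : f0 % 2 = 0)
    (M : ℕ) (hM2 : M % 2 = 0)
    (hM : ∑ i ∈ range (J + 1), B * u i + (3 * d 0 + 1) * f0 ≤ M) : Good g M := by
  set U := ∑ i ∈ range (J + 1), B * u i with hU
  obtain ⟨R, hR⟩ : ∃ R, M = U + R := ⟨M - U, by omega⟩
  have hR1 : (3 * d 0 + 1) * f0 ≤ R := by omega
  set k := R / f0 with hk
  have hk1 : 3 * d 0 + 1 ≤ k := (Nat.le_div_iff_mul_le hf0).mpr hR1
  have hY : R % f0 < B * d J := lt_of_lt_of_le (Nat.mod_lt _ hf0) hBf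
  obtain ⟨t, r, ht, hr, hsum⟩ := greedy d B J hd hB _ hY
  have hkf : k * f0 + R % f0 = R := Nat.div_add_mod' R f0
  -- parity of `r`
  have e1 : U % 2 = 0 := by
    rw [hU, Finset.sum_nat_mod]
    have : ∀ i ∈ range (J + 1), B * u i % 2 = 0 := by
      intro i hi
      rw [mem_range] at hi
      rw [Nat.mul_mod, hu2 i (by omega)]
      simp
    rw [sum_congr rfl this]
    simp
  have e2 : (∑ i ∈ range (J + 1), t i * d i) % 2 = 0 := by
    rw [Finset.sum_nat_mod]
    have : ∀ i ∈ range (J + 1), t i * d i % 2 = 0 := by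
      intro i hi
      rw [mem_range] at hi
      rw [Nat.mul_mod, hd2 i (by omega)]
      simp
    rw [sum_congr rfl this]
    simp
  have e3 : (k * f0) % 2 = 0 := by
    rw [Nat.mul_mod, hf2]
    simp
  obtain ⟨ρ, hρ⟩ : ∃ ρ, r = 2 * ρ := ⟨r / 2, by omega⟩
  have hρk : 3 * ρ ≤ k := by omega
  obtain ⟨l, hl⟩ : ∃ l, k = 3 * ρ + l := ⟨k - 3 * ρ, by omega⟩
  have e4 : ∑ i ∈ range (J + 1), ((B - t i) * u i + t i * (u i + d i)) =
      U + ∑ i ∈ range (J + 1), t i * d i := by
    rw [hU, ← sum_add_distrib]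
    apply sum_congr rfl
    intro i hi
    rw [mem_range] at hi
    have h1 := ht i (by omega)
    obtain ⟨c, hc⟩ : ∃ c, B = t i + c := ⟨B - t i, by omega⟩
    have h2 : B - t i = c := by omega
    rw [h2, hc]
    ring
  have e5 : M = ∑ i ∈ range (J + 1), ((B - t i) * u i + t i * (u i + d i)) +
      (l * f0 + ρ * (3 * f0 + 2)) := by
    rw [e4, hR, ← hkf, hsum, hρ, hl]
    ring
  rw [e5]
  apply Good.add
  · apply Good.sum
    intro i hi
    rw [mem_range] at hi
    exact ((hu i (by omega)).mul _).add ((hv i (by omega)).mul _)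
  · exact (hf.mul l).add ((hf.add_two hf0).mul ρ)

end H25G
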